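import Mathlib

/-!
# Auerbach systems

Proof. Take an `n`-dimensional subspace `F` of `X` (`n` linearly independent vectors) and a basis of
`F`; among all `n`-tuples in the closed unit ball of `F` (compact) choose one with maximal `|det|`
(nonzero: scaled basis). `ξ_i y = det (x with x_i replaced by y) / det x` is linear, `|ξ_i y| ≤ 1` for
`‖y‖ ≤ 1` by maximality, `ξ_i x_j = δ_ij`. Extend to `X` with the same norm
(`Real.exists_extension_norm_eq` / `exists_extension_norm_eq`).
-/

set_option autoImplicit false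

namespace Pool.Agent.Lib.MP_65fa9b_an_c

/-- Auerbach systems in a finite-dimensional normed space with a basis indexed by `ι`. -/
theorem Auer_fin {F : Type*} [NormedAddCommGroup F] [NormedSpace ℝ F] [FiniteDimensional ℝ F]
    {ι : Type*} [Fintype ι] [DecidableEq ι] (b : Module.Basis ι ℝ F) :
    ∃ (x : ι → F) (ξ : ι → (F →L[ℝ] ℝ)), (∀ i, ‖x i‖ ≤ 1) ∧ (∀ i, ‖ξ i‖ ≤ 1) ∧
      ∀ i j, ξ i (x j) = if i = j then 1 else 0 := by
  have : ProperSpace (ι → F) := FiniteDimensional.proper ℝ (ι → F)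
  have hcont : Continuous (fun w : ι → F => b.det w) := by
    have h : (fun w : ι → F => b.det w) = fun w => (b.toMatrix w).det := by
      funext w
      exact b.det_apply w
    rw [h]
    refine Continuous.matrix_det ?_
    refine continuous_matrix fun i j => ?_
    have h1 : Continuous (b.coord i) := LinearMap.continuous_of_finiteDimensional _
    exact h1.comp (continuous_apply j)
  obtain ⟨w, hw, hmax⟩ := (isCompact_closedBall (0 : ι → F) 1).exists_isMaxOn
    ⟨0, by simp⟩ (continuous_abs.comp hcont).continuousOn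
  have hball : ∀ v : ι → F, v ∈ Metric.closedBall (0 : ι → F) 1 ↔ ∀ i, ‖v i‖ ≤ 1 := by
    intro v
    rw [mem_closedBall_zero_iff, pi_norm_le_iff_of_nonneg zero_le_one]
  have hw1 := (hball w).1 hw
  have hmax1 : ∀ v : ι → F, (∀ i, ‖v i‖ ≤ 1) → |b.det v| ≤ |b.det w| := by
    intro v hv
    exact hmax ((hball v).2 hv)
  have hne : b.det w ≠ 0 := by
    intro h0
    have h1 := hmax1 (fun i => (‖b i‖⁻¹ : ℝ) • b i) (fun i => by
      rw [norm_smul, norm_inv, norm_norm]
      exact inv_mul_le_one)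
    rw [AlternatingMap.map_smul_univ, h0, abs_zero, b.det_self] at h1
    have h2 := abs_nonpos_iff.1 h1
    rw [smul_eq_mul, mul_one, Finset.prod_eq_zero_iff] at h2
    obtain ⟨i, -, hi⟩ := h2
    exact b.ne_zero i (norm_eq_zero.1 (inv_eq_zero.1 hi))
  have hlin : ∀ i, ∃ ξ : F →ₗ[ℝ] ℝ, ∀ y, ξ y = b.det (Function.update w i y) / b.det w := by
    intro i
    refine ⟨(b.det w)⁻¹ • (b.det.toMultilinearMap.toLinearMap w i), fun y => ?_⟩
    show (b.det w)⁻¹ * b.det (Function.update w i y) = _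
    rw [div_eq_inv_mul]
  choose ξ hξ using hlin
  have hb : ∀ i y, ‖ξ i y‖ ≤ 1 * ‖y‖ := by
    intro i y
    by_cases hy : y = 0
    · rw [hy, map_zero, norm_zero, norm_zero, mul_zero]
    have hy' : 0 < ‖y‖ := norm_pos_iff.2 hy
    have h1 : ‖ξ i (‖y‖⁻¹ • y)‖ ≤ 1 := by
      rw [hξ, Real.norm_eq_abs, abs_div]
      refine (div_le_one (abs_pos.2 hne)).2 (hmax1 _ fun j => ?_)
      by_cases hj : j = i
      · rw [hj, Function.update_self, norm_smul, norm_inv, norm_norm, inv_mul_cancel₀ hy'.ne']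
      · rw [Function.update_of_ne hj]
        exact hw1 j
    rw [map_smul, norm_smul, norm_inv, norm_norm] at h1
    rw [one_mul]
    have h2 := mul_le_mul_of_nonneg_left h1 hy'.le
    rwa [← mul_assoc, mul_inv_cancel₀ hy'.ne', one_mul, mul_one] at h2
  refine ⟨w, fun i => (ξ i).mkContinuous 1 (hb i), hw1,
    fun i => LinearMap.mkContinuous_norm_le _ zero_le_one _, fun i j => ?_⟩
  rw [LinearMap.mkContinuous_apply, hξ]
  by_cases hij : i = j
  · subst hij
    rw [Function.update_eq_self, div_self hne, if_pos rfl]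
  · rw [if_neg hij, AlternatingMap.map_update_self _ _ hij, zero_div]

/-- Auerbach systems in infinite-dimensional normed spaces. -/
theorem auerbach {X : Type*} [NormedAddCommGroup X] [NormedSpace ℝ X]
    (hX : ¬ FiniteDimensional ℝ X) (ι : Type*) [Fintype ι] [DecidableEq ι] :
    ∃ (x : ι → X) (ξ : ι → (X →L[ℝ] ℝ)), (∀ i, ‖x i‖ ≤ 1) ∧ (∀ i, ‖ξ i‖ ≤ 1) ∧
      ∀ i j, ξ i (x j) = if i = j then 1 else 0 := by
  have hr : ((Fintype.card ι : ℕ) : Cardinal) ≤ Module.rank ℝ X := by
    have h1 : Cardinal.aleph0 ≤ Module.rank ℝ X := by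
      by_contra h
      exact hX (Module.rank_lt_aleph0_iff.1 (not_le.1 h))
    exact (Cardinal.natCast_lt_aleph0.le).trans h1
  obtain ⟨v0, hv0⟩ := exists_linearIndependent_of_le_rank hr
  have hv : LinearIndependent ℝ (v0 ∘ (Fintype.equivFin ι)) :=
    hv0.comp _ (Fintype.equivFin ι).injective
  have hfd : FiniteDimensional ℝ (Submodule.span ℝ (Set.range (v0 ∘ (Fintype.equivFin ι)))) :=
    FiniteDimensional.span_of_finite ℝ (Set.finite_range _)
  obtain ⟨x, ξ, hx, hξ, hd⟩ := Auer_fin (Module.Basis.span hv)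
  have hext : ∀ i, ∃ g : X →L[ℝ] ℝ, (∀ y : Submodule.span ℝ (Set.range (v0 ∘ (Fintype.equivFin ι))),
      g y = ξ i y) ∧ ‖g‖ = ‖ξ i‖ := fun i => exists_extension_norm_eq _ (ξ i)
  choose g hg hgn using hext
  refine ⟨fun i => (x i : X), g, fun i => ?_, fun i => ?_, fun i j => ?_⟩
  · exact hx i
  · rw [hgn]
    exact hξ i
  · rw [hg]
    exact hd i j

end Pool.Agent.Lib.MP_65fa9b_an_c
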