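import Pool.Agent.Lib.MP_65fa9b_an_c.Defs

/-!
# The averaging lemma

Proof. Let `H t = ∫_0^t e`: it is C¹, 1-periodic (mean zero), hence bounded, `|H| ≤ A`. With
`G x = s * H (η x / s)` one has `fderiv G x r = e (η x / s) * η r = e (η x / s)`, `|G| ≤ s A`, and `G`
is Lipschitz. Integration by parts (`LipschitzWith.integral_lineDeriv_mul_eq`, with `f` Lipschitz and
compactly supported: `∫ lineDeriv G x r * f x = ∫ lineDeriv f x (-r) * G x`) gives
`|∫ f x * e (η x / s)| ≤ s A ∫ |lineDeriv f x (-r)| ≤ s A K ‖r‖ vol (closedBall 0 (R+1)) → 0`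
(`lineDeriv f x = 0` outside the closed ball of radius `R`).
-/

set_option autoImplicit false

open MeasureTheory Set Filter Topology

open scoped ContDiff NNReal

namespace Pool.Agent.Lib.MP_65fa9b_an_c

/-- primitive of a periodic function of mean zero -/
theorem Avg_prim {e : ℝ → ℝ} (he : Continuous e) (hp : Function.Periodic e 1)
    (h0 : ∫ t in (0 : ℝ)..1, e t = 0) :
    ∃ (G : ℝ → ℝ) (M : ℝ), 0 ≤ M ∧ (∀ t, HasDerivAt G (e t) t) ∧ (∀ t, |G t| ≤ M) ∧
      ∀ t, |e t| ≤ M := by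
  have hG : ∀ t, HasDerivAt (fun t => ∫ u in (0 : ℝ)..t, e u) (e t) t := fun t =>
    intervalIntegral.integral_hasDerivAt_right (he.intervalIntegrable _ _)
      (he.stronglyMeasurableAtFilter _ _) he.continuousAt
  have hGp : Function.Periodic (fun t => ∫ u in (0 : ℝ)..t, e u) 1 := by
    intro t
    change ∫ u in (0 : ℝ)..(t + 1), e u = ∫ u in (0 : ℝ)..t, e u
    rw [← intervalIntegral.integral_add_adjacent_intervals (he.intervalIntegrable 0 t)
      (he.intervalIntegrable t (t + 1)), hp.intervalIntegral_add_eq t 0, zero_add, h0, add_zero]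
  have hGc : Continuous (fun t => ∫ u in (0 : ℝ)..t, e u) :=
    continuous_iff_continuousAt.2 fun t => (hG t).continuousAt
  have hb : ∀ {f : ℝ → ℝ}, Continuous f → Function.Periodic f 1 → ∃ M, ∀ t, |f t| ≤ M := by
    intro f hf hfp
    obtain ⟨M, hM⟩ := (isCompact_Icc (a := (0 : ℝ)) (b := 1)).exists_bound_of_continuousOn
      hf.continuousOn
    refine ⟨M, fun t => ?_⟩
    obtain ⟨y, hy, hyt⟩ := hfp.exists_mem_Ico₀ one_pos t
    rw [hyt]
    exact hM y ⟨hy.1, hy.2.le⟩
  obtain ⟨M1, hM1⟩ := hb hGc hGp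
  obtain ⟨M2, hM2⟩ := hb he hp
  refine ⟨_, max M1 M2, ?_, hG, fun t => (hM1 t).trans (le_max_left _ _), fun t =>
    (hM2 t).trans (le_max_right _ _)⟩
  exact (abs_nonneg _).trans ((hM1 0).trans (le_max_left _ _))

section

variable {E : Type*} [NormedAddCommGroup E] [NormedSpace ℝ E] [MeasurableSpace E] [BorelSpace E]
  [FiniteDimensional ℝ E] (μ : Measure E) [μ.IsAddHaarMeasure]

/-- the null lemma -/
theorem Avg_null {e : ℝ → ℝ} (he : Continuous e) (hp : Function.Periodic e 1)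
    (h0 : ∫ t in (0 : ℝ)..1, e t = 0) (η : E →L[ℝ] ℝ) (r : E) (hr : η r = 1) (ρ : ℝ) :
    ∃ C : ℝ, 0 ≤ C ∧ ∀ s : ℝ, 0 < s → ∀ (f : E → ℝ) (K : NNReal), LipschitzWith K f →
      (∀ x, ρ < ‖x‖ → f x = 0) → |∫ x, f x * e (η x / s) ∂μ| ≤ C * K * s := by
  obtain ⟨G, M, hM, hG, hGM, heM⟩ := Avg_prim he hp h0
  refine ⟨‖r‖ * M * (μ (Metric.closedBall 0 ρ)).toReal, by positivity, fun s hs f K hf hsupp => ?_⟩
  set g : E → ℝ := fun x => G (η x / s) with hgdef
  have hgd : ∀ x, HasLineDerivAt ℝ g (e (η x / s) / s) x r := by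
    intro x
    unfold HasLineDerivAt
    have h1 : HasDerivAt (fun t : ℝ => η (x + t • r) / s) (1 / s) 0 := by
      have h2 : (fun t : ℝ => η (x + t • r) / s) = fun t : ℝ => (η x + t) / s := by
        funext t
        rw [map_add, map_smul, hr, smul_eq_mul, mul_one]
      rw [h2]
      exact ((hasDerivAt_id (0 : ℝ)).const_add (η x)).div_const s
    have h3 : HasDerivAt G (e (η x / s)) (η (x + (0 : ℝ) • r) / s) := by
      rw [zero_smul, add_zero]
      exact hG _
    have h4 := h3.comp (0 : ℝ) h1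
    rw [div_eq_mul_one_div]
    exact h4
  have hGl : LipschitzWith M.toNNReal G := by
    refine lipschitzWith_of_nnnorm_deriv_le (fun t => (hG t).differentiableAt) fun t => ?_
    rw [(hG t).deriv, ← NNReal.coe_le_coe, coe_nnnorm, Real.norm_eq_abs, Real.coe_toNNReal _ hM]
    exact heM t
  have hgl : LipschitzWith (M.toNNReal * (‖η‖₊ * (1 / s).toNNReal)) g := by
    refine hGl.comp ?_
    refine LipschitzWith.of_dist_le_mul fun x y => ?_
    rw [Real.dist_eq, ← sub_div, ← map_sub, abs_div, abs_of_pos hs, NNReal.coe_mul, coe_nnnorm,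
      Real.coe_toNNReal _ (by positivity), dist_eq_norm]
    have := η.le_opNorm (x - y)
    rw [Real.norm_eq_abs] at this
    rw [div_le_iff₀ hs]
    calc |η (x - y)| ≤ ‖η‖ * ‖x - y‖ := this
      _ = ‖η‖ * (1 / s) * ‖x - y‖ * s := by
        field_simp
  have hfc : HasCompactSupport f := by
    refine HasCompactSupport.intro (isCompact_closedBall (0 : E) ρ) fun x hx => hsupp x ?_
    rwa [Metric.mem_closedBall, dist_zero_right, not_le] at hx
  have hparts := LipschitzWith.integral_lineDeriv_mul_eq (μ := μ) hgl hf hfc r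
  have h5 : ∫ x, f x * e (η x / s) ∂μ = s * ∫ x, lineDeriv ℝ f x (-r) * g x ∂μ := by
    rw [← hparts, ← integral_const_mul]
    refine integral_congr_ae (Filter.Eventually.of_forall fun x => ?_)
    change f x * e (η x / s) = s * (lineDeriv ℝ g x r * f x)
    rw [(hgd x).lineDeriv]
    field_simp
  have h6 : |∫ x, lineDeriv ℝ f x (-r) * g x ∂μ| ≤
      ((K : ℝ) * ‖r‖ * M) * (μ (Metric.closedBall 0 ρ)).toReal := by
    rw [← setIntegral_eq_integral_of_forall_compl_eq_zero (s := Metric.closedBall (0 : E) ρ),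
      ← Real.norm_eq_abs]
    · refine norm_setIntegral_le_of_norm_le_const (isCompact_closedBall (0 : E) ρ).measure_lt_top
        fun x _ => ?_
      rw [Real.norm_eq_abs, abs_mul]
      have h7 : |lineDeriv ℝ f x (-r)| ≤ K * ‖r‖ := by
        have h10 : ‖lineDeriv ℝ f x (-r)‖ ≤ K * ‖-r‖ := norm_lineDeriv_le_of_lipschitz ℝ hf
        rwa [norm_neg, Real.norm_eq_abs] at h10
      exact mul_le_mul h7 (hGM _) (abs_nonneg _) (by positivity)
    · intro x hx
      rw [Metric.mem_closedBall, dist_zero_right, not_le] at hx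
      have h8 : f =ᶠ[𝓝 x] fun _ => (0 : ℝ) := by
        have : {y : E | ρ < ‖y‖} ∈ 𝓝 x := (isOpen_lt continuous_const continuous_norm).mem_nhds hx
        filter_upwards [this] with y hy
        exact hsupp y hy
      have h9 : lineDeriv ℝ f x (-r) = 0 := by
        rw [h8.lineDeriv_eq]
        exact (hasLineDerivAt_iff_isLittleO_nhds_zero.2 (by simp)).lineDeriv
      rw [h9, zero_mul]
  rw [h5, abs_mul, abs_of_pos hs]
  calc s * |∫ x, lineDeriv ℝ f x (-r) * g x ∂μ| ≤
      s * (((K : ℝ) * ‖r‖ * M) * (μ (Metric.closedBall 0 ρ)).toReal) :=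
        mul_le_mul_of_nonneg_left h6 hs.le
    _ = _ := by ring

end

variable {ι : Type*} [Fintype ι]

/-- Averaging, uniformly on Lipschitz functions with supports in a fixed ball. -/
theorem averaging {e : ℝ → ℝ} (he : Continuous e) (hper : Function.Periodic e 1)
    (hint : ∫ t in (0 : ℝ)..1, e t = 0) (η : (ι → ℝ) →L[ℝ] ℝ) (r : ι → ℝ) (hηr : η r = 1)
    (K : ℝ≥0) (R : ℝ) {ε : ℝ} (hε : 0 < ε) :
    ∀ᶠ s in 𝓝[>] (0 : ℝ), ∀ f : (ι → ℝ) → ℝ, LipschitzWith K f → (∀ x, f x ≠ 0 → ‖x‖ ≤ R) →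
      |∫ x, f x * e (η x / s)| ≤ ε := by
  obtain ⟨C, hC, h⟩ := Avg_null (volume : Measure (ι → ℝ)) he hper hint η r hηr R
  have hpos : 0 < ε / (C * K + 1) := by positivity
  filter_upwards [Ioo_mem_nhdsGT hpos] with s hs f hf hsupp
  refine (h s hs.1 f K hf fun x hx => ?_).trans ?_
  · by_contra h0
    exact absurd (hsupp x h0) (not_le.2 hx)
  · have h1 : s * (C * K + 1) ≤ ε := by
      rw [← le_div_iff₀ (by positivity)]
      exact hs.2.le
    have h2 : 0 ≤ s := hs.1.le
    calc C * K * s ≤ s * (C * K + 1) := by nlinarith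
      _ ≤ ε := h1

end Pool.Agent.Lib.MP_65fa9b_an_c
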