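import Pool.Agent.Lib.MP_65fa9b_an_c.Pair

/-!
# The base state and the end of the proof of the core theorem
-/

set_option autoImplicit false

open MeasureTheory Set Filter Topology

open scoped ContDiff NNReal

namespace Pool.Agent.Lib.MP_65fa9b_an_c

variable {ι L : Type*} [Fintype ι] [DecidableEq ι] [Fintype L] [DecidableEq L]

omit [DecidableEq ι] in
theorem CoreEnd_isTest_zero : IsTest (fun _ : ι → ℝ => (0 : ℝ)) :=
  ⟨contDiff_const, HasCompactSupport.zero⟩

omit [DecidableEq ι] in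
theorem CoreEnd_pair_zero_left (v : ι → ℝ) (ψ : (ι → ℝ) → ℝ) :
    pair v (fun _ : ι → ℝ => (0 : ℝ)) ψ = 0 := by
  unfold pair
  simp

omit [DecidableEq ι] in
theorem CoreEnd_pair_mul_left (v : ι → ℝ) {Q : (ι → ℝ) → ℝ} (hQ : IsTest Q) (c : ℝ)
    (ψ : (ι → ℝ) → ℝ) : pair v (fun x => c * Q x) ψ = c * pair v Q ψ := by
  unfold pair
  rw [mul_neg, ← integral_const_mul]
  congr 1
  refine integral_congr_ae (Filter.Eventually.of_forall fun x => ?_)
  have hd : DifferentiableAt ℝ Q x := (hQ.1.differentiable (by simp)) x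
  show fderiv ℝ (fun x => c * Q x) x v * ψ x = c * (fderiv ℝ Q x v * ψ x)
  rw [fderiv_const_mul hd]
  rw [show (c • fderiv ℝ Q x) v = c * fderiv ℝ Q x v from rfl]
  ring

/-- The base state. -/
theorem CoreEnd_state_nil (S : Sys ι L) (ν : Seminorm ℝ (ι → ℝ))
    (hν : ∀ i, ν (Pi.single i 1) ≤ 1) {ε : ℝ} (hε : 0 < ε) : Nonempty (State S ν [] ε) := by
  let f : ContDiffBump (0 : ι → ℝ) := ⟨1, 2, one_pos, one_lt_two⟩
  have hP : IsTest (f.normed volume) := ⟨f.contDiff_normed, f.hasCompactSupport_normed⟩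
  have hP0 : ∀ x, 0 ≤ f.normed volume x := f.nonneg_normed
  have hP1 : ∫ x, f.normed volume x = 1 := f.integral_normed
  have hD : ∀ α : L → ℝ, S.D [] α = 0 := fun α => by simp [Sys.D]
  refine ⟨{
    P := f.normed volume
    C := fun _ => 1
    b := 0
    Q := fun _ _ => 0
    P_test := hP
    P_nonneg := hP0
    P_int := by rw [hP1]; simpa using hε.le
    C_smooth := contDiff_const
    C_nonneg := fun _ => zero_le_one
    C_le := fun _ => le_rfl
    C_bdd := ⟨0, fun x => by simp⟩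
    P_C := fun x _ => Filter.Eventually.of_forall fun y => rfl
    b_smooth := fun α => contDiff_const
    b_P := fun α x _ => by
      rw [hD]
      show fderiv ℝ (fun _ : ι → ℝ => (0 : ℝ)) x = 0
      simp
    grad1 := fun α R hR x _ => by
      rw [hD]
      have h1 : fderiv ℝ ((0 : (L → ℝ) →ₗ[ℝ] ((ι → ℝ) → ℝ)) α) x = 0 := by
        show fderiv ℝ (fun _ : ι → ℝ => (0 : ℝ)) x = 0
        simp
      rw [h1]
      simp only [smul_zero, norm_zero, sub_self, zero_mul, zero_add]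
      positivity
    grad2 := fun α R hR x => by
      have h1 : fderiv ℝ ((0 : (L → ℝ) →ₗ[ℝ] ((ι → ℝ) → ℝ)) α) x = 0 := by
        show fderiv ℝ (fun _ : ι → ℝ => (0 : ℝ)) x = 0
        simp
      have h2 : 0 ≤ R := (norm_nonneg _).trans (hR [] List.nil_suffix)
      rw [h1, norm_zero]
      positivity
    Q_test := fun _ => CoreEnd_isTest_zero
    Q_int := fun l => by simp
    pairing := fun α l => by
      rw [CoreEnd_pair_zero_left]
      simp only [List.count_nil, Nat.cast_zero, zero_mul, sub_zero, abs_zero]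
      positivity
    tele := fun ψ _ hψ i => by
      have h1 : ∀ l, pair (S.r l) (fun _ : ι → ℝ => (0 : ℝ)) ψ = 0 := fun l =>
        CoreEnd_pair_zero_left _ _
      simp only [h1, mul_zero, Finset.sum_const_zero, zero_add]
      have h2 := abs_pair_le ν (Pi.single i 1) (ψ := ψ) (K := 1) hP (by simpa using hψ)
      have h3 : ∫ x, |f.normed volume x| = 1 := by
        rw [← hP1]
        exact integral_congr_ae (Filter.Eventually.of_forall fun x => abs_of_nonneg (hP0 x))
      rw [h3, mul_one, one_mul] at h2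
      linarith [hν i] }⟩

/-! ## Suffixes of a periodic word -/

theorem CoreEnd_suffix {A : Type*} {u v w : List A} (h : w <:+ u ++ v) :
    w <:+ v ∨ ∃ t, t <:+ u ∧ w = t ++ v := by
  rcases List.suffix_or_suffix_of_suffix h (List.suffix_append u v) with h1 | h1
  · exact Or.inl h1
  · obtain ⟨t, rfl⟩ := h1
    obtain ⟨s, hs⟩ := h
    rw [← List.append_assoc] at hs
    exact Or.inr ⟨t, ⟨s, List.append_cancel_right hs⟩, rfl⟩

/-- The word: `K` copies of `u`. -/
def CoreEnd_word {A : Type*} (u : List A) : ℕ → List A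
  | 0 => []
  | K + 1 => u ++ CoreEnd_word u K

theorem CoreEnd_count {A : Type*} [DecidableEq A] (u : List A) (a : A) (K : ℕ) :
    (CoreEnd_word u K).count a = K * u.count a := by
  induction K with
  | zero => simp [CoreEnd_word]
  | succ K ih => rw [CoreEnd_word, List.count_append, ih]; ring

theorem CoreEnd_sum {A V : Type*} [AddCommMonoid V] (φ : A → V) (u : List A)
    (hu : (u.map φ).sum = 0) (K : ℕ) : ((CoreEnd_word u K).map φ).sum = 0 := by
  induction K with
  | zero => simp [CoreEnd_word]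
  | succ K ih => rw [CoreEnd_word, List.map_append, List.sum_append, ih, hu, add_zero]

theorem CoreEnd_bound {A V : Type*} [SeminormedAddCommGroup V] (φ : A → V) (u : List A)
    (hu : (u.map φ).sum = 0) {R : ℝ} (hR : ∀ t, t <:+ u → ‖(t.map φ).sum‖ ≤ R) (K : ℕ) :
    ∀ w, w <:+ CoreEnd_word u K → ‖(w.map φ).sum‖ ≤ R := by
  induction K with
  | zero =>
    intro w hw
    have : w = [] := List.suffix_nil.mp hw
    subst this
    exact hR [] List.nil_suffix
  | succ K ih =>
    intro w hw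
    rcases CoreEnd_suffix hw with h | ⟨t, ht, rfl⟩
    · exact ih w h
    · rw [List.map_append, List.sum_append, CoreEnd_sum φ u hu K, add_zero]
      exact hR t ht

theorem CoreEnd_norm_sum_le {A V : Type*} [SeminormedAddCommGroup V] (φ : A → V) (c : A → ℝ)
    (hφ : ∀ a, ‖φ a‖ ≤ c a) (t u : List A) (h : t <:+ u) :
    ‖(t.map φ).sum‖ ≤ (u.map c).sum := by
  have hc : ∀ a, 0 ≤ c a := fun a => (norm_nonneg _).trans (hφ a)
  have h1 : ∀ t : List A, ‖(t.map φ).sum‖ ≤ (t.map c).sum := by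
    intro t
    induction t with
    | nil => simp
    | cons a t ih =>
      simp only [List.map_cons, List.sum_cons]
      exact (norm_add_le _ _).trans (add_le_add (hφ a) ih)
  obtain ⟨s, rfl⟩ := h
  refine (h1 t).trans ?_
  rw [List.map_append, List.sum_append]
  have h2 : 0 ≤ (s.map c).sum := List.sum_nonneg fun x hx => by
    obtain ⟨a, -, rfl⟩ := List.mem_map.mp hx
    exact hc a
  linarith

/-- States exist for all words. -/
theorem CoreEnd_states (S : Sys ι L) (ν : Seminorm ℝ (ι → ℝ))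
    (hν : ∀ i, ν (Pi.single i 1) ≤ 1)
    (step : ∀ {ε : ℝ}, 0 < ε → ε ≤ 1 / 8 → ∀ (l : L) (w : List L), State S ν w (ε / 2) →
      Nonempty (State S ν (l :: w) ε)) (w : List L) :
    ∀ ε : ℝ, 0 < ε → ε ≤ 1 / 8 → Nonempty (State S ν w ε) := by
  induction w with
  | nil => intro ε hε _; exact CoreEnd_state_nil S ν hν hε
  | cons l w ih =>
    intro ε hε hε'
    obtain ⟨st⟩ := ih (ε / 2) (by positivity) (by linarith)
    exact step hε hε' l w st

/-- **Core theorem**, from the step. -/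
theorem CoreEnd_core (S : Sys ι L) (hγ : ∑ l, S.γ l ≤ 1 / 2) (ν : Seminorm ℝ (ι → ℝ))
    (hν : ∀ i, ν (Pi.single i 1) ≤ 1)
    (step : ∀ {ε : ℝ}, 0 < ε → ε ≤ 1 / 8 → ∀ (l : L) (w : List L), State S ν w (ε / 2) →
      Nonempty (State S ν (l :: w) ε)) {ε : ℝ} (hε : 0 < ε) :
    ∃ (Q : L → (ι → ℝ) → ℝ) (b : (L → ℝ) →ₗ[ℝ] ((ι → ℝ) → ℝ)),
      (∀ l, IsTest (Q l)) ∧ (∀ l, ∫ x, |Q l x| ≤ 3) ∧ (∀ α, ContDiff ℝ ∞ (b α)) ∧
      (∀ α : L → ℝ, ∑ l, (S.γ l * α l) • S.η l = 0 →
        (∀ x, ‖fderiv ℝ (b α) x‖ ≤ 6 * ‖α‖) ∧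
        ∀ l, |pair (S.r l) (Q l) (b α) - α l / 2| ≤ ε * ‖α‖) ∧
      ∀ ψ : (ι → ℝ) → ℝ, ψ 0 = 0 → (∀ x y, |ψ x - ψ y| ≤ ν (x - y)) → ∀ i,
        |∑ l, S.γ l * S.η l (Pi.single i 1) * pair (S.r l) (Q l) ψ| ≤ ε := by
  obtain ⟨K, hK⟩ := exists_nat_gt (max 1 (2 / ε))
  have hK1 : (1 : ℝ) < K := (le_max_left _ _).trans_lt hK
  have hK2 : 2 / ε < K := (le_max_right _ _).trans_lt hK
  have hK0 : (0 : ℝ) < K := zero_lt_one.trans hK1
  set e : ℝ := min ε (1 / 8) with he
  have he0 : 0 < e := lt_min hε (by norm_num)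
  have heε : e ≤ ε := min_le_left _ _
  have he8 : e ≤ 1 / 8 := min_le_right _ _
  set u : List L := Finset.univ.toList with hu
  obtain ⟨st⟩ := CoreEnd_states S ν hν step (CoreEnd_word u K) e he0 he8
  have hcount : ∀ l, ((CoreEnd_word u K).count l : ℝ) = K := by
    intro l
    have h1 : u.count l = 1 :=
      List.count_eq_one_of_mem (Finset.nodup_toList _) (Finset.mem_toList.mpr (Finset.mem_univ l))
    rw [CoreEnd_count, h1, mul_one]
  refine ⟨fun l x => (K : ℝ)⁻¹ * st.Q l x, st.b, fun l => ?_, fun l => ?_, st.b_smooth,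
    fun α hα => ⟨fun x => ?_, fun l => ?_⟩, fun ψ h0 hψ i => ?_⟩
  · exact ⟨contDiff_const.mul (st.Q_test l).1, (st.Q_test l).2.mul_left⟩
  · have h1 := st.Q_int l
    rw [hcount] at h1
    have h2 : ∀ x, |(K : ℝ)⁻¹ * st.Q l x| = (K : ℝ)⁻¹ * |st.Q l x| := fun x => by
      rw [abs_mul, abs_of_pos (inv_pos.mpr hK0)]
    simp only [h2]
    rw [integral_const_mul]
    calc (K : ℝ)⁻¹ * ∫ x, |st.Q l x| ≤ (K : ℝ)⁻¹ * (3 * K) :=
          mul_le_mul_of_nonneg_left h1 (inv_pos.mpr hK0).le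
      _ = 3 := by field_simp
  · have h1 : ∀ w', w' <:+ CoreEnd_word u K → ‖S.D w' α‖ ≤ ‖α‖ := by
      intro w' hw'
      unfold Sys.D
      rw [norm_neg]
      refine CoreEnd_bound (fun l => (S.γ l * α l) • S.η l) u ?_ ?_ K w' hw'
      · rw [← hα, hu]
        exact Finset.sum_map_toList _ _
      · intro t ht
        refine (CoreEnd_norm_sum_le (fun l => (S.γ l * α l) • S.η l) (fun l => S.γ l * (2 * ‖α‖))
          (fun l => ?_) t u ht).trans ?_
        · rw [norm_smul, Real.norm_eq_abs, abs_mul, abs_of_pos (S.γ_pos l), mul_assoc]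
          refine mul_le_mul_of_nonneg_left ?_ (S.γ_pos l).le
          calc |α l| * ‖S.η l‖ ≤ ‖α‖ * 2 :=
                mul_le_mul (norm_le_pi_norm α l) (S.norm_η l) (norm_nonneg _) (norm_nonneg _)
            _ = 2 * ‖α‖ := mul_comm _ _
        · have h3 : (u.map fun l => S.γ l * (2 * ‖α‖)).sum = ∑ l, S.γ l * (2 * ‖α‖) := by
            rw [hu]
            exact Finset.sum_map_toList _ _
          rw [h3, ← Finset.sum_mul]
          calc (∑ l, S.γ l) * (2 * ‖α‖) ≤ 1 / 2 * (2 * ‖α‖) :=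
                mul_le_mul_of_nonneg_right hγ (by positivity)
            _ = ‖α‖ := by ring
    refine (st.grad2 α ‖α‖ h1 x).trans ?_
    have : (4 + e) * ‖α‖ ≤ 5 * ‖α‖ := mul_le_mul_of_nonneg_right (by linarith) (norm_nonneg _)
    linarith
  · have h1 := st.pairing α l
    rw [hcount] at h1
    rw [CoreEnd_pair_mul_left _ (st.Q_test l)]
    have h2 : (K : ℝ)⁻¹ * pair (S.r l) (st.Q l) (st.b α) - α l / 2 =
        (K : ℝ)⁻¹ * (pair (S.r l) (st.Q l) (st.b α) - K * (α l / 2)) := by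
      field_simp
    rw [h2, abs_mul, abs_of_pos (inv_pos.mpr hK0)]
    calc (K : ℝ)⁻¹ * |pair (S.r l) (st.Q l) (st.b α) - K * (α l / 2)| ≤ 1 * (e * ‖α‖) := by
          refine mul_le_mul ?_ h1 (abs_nonneg _) zero_le_one
          rw [inv_le_one₀ hK0]
          exact hK1.le
      _ ≤ ε * ‖α‖ := by
          rw [one_mul]
          exact mul_le_mul_of_nonneg_right heε (norm_nonneg _)
  · have h1 := st.tele ψ h0 hψ i
    have h2 := abs_pair_le ν (Pi.single i 1) (ψ := ψ) (K := 1) st.P_test (by simpa using hψ)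
    have h3 : ∫ x, |st.P x| ≤ 1 + e := by
      have h4 : ∫ x, |st.P x| = ∫ x, st.P x :=
        integral_congr_ae (Filter.Eventually.of_forall fun x => abs_of_nonneg (st.P_nonneg x))
      have h5 := (abs_le.mp st.P_int).2
      linarith
    have h6 : |pair (Pi.single i 1) st.P ψ| ≤ 1 + e := by
      refine h2.trans ?_
      have h7 : 0 ≤ ∫ x, |st.P x| := integral_nonneg fun x => abs_nonneg _
      calc 1 * ν (Pi.single i 1) * ∫ x, |st.P x| ≤ 1 * (1 + e) := by
            rw [one_mul]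
            exact mul_le_mul (hν i) h3 h7 zero_le_one
        _ = 1 + e := one_mul _
    have h8 : |∑ l, 2 * S.γ l * S.η l (Pi.single i 1) * pair (S.r l) (st.Q l) ψ| ≤
        2 * (1 + e) := by
      have h9 := abs_sub (∑ l, 2 * S.γ l * S.η l (Pi.single i 1) * pair (S.r l) (st.Q l) ψ +
        pair (Pi.single i 1) st.P ψ) (pair (Pi.single i 1) st.P ψ)
      rw [add_sub_cancel_right] at h9
      linarith
    have h10 : ∑ l, S.γ l * S.η l (Pi.single i 1) * pair (S.r l) (fun x => (K : ℝ)⁻¹ * st.Q l x) ψ =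
        (K : ℝ)⁻¹ / 2 * ∑ l, 2 * S.γ l * S.η l (Pi.single i 1) * pair (S.r l) (st.Q l) ψ := by
      rw [Finset.mul_sum]
      refine Finset.sum_congr rfl fun l _ => ?_
      rw [CoreEnd_pair_mul_left _ (st.Q_test l)]
      ring
    rw [h10, abs_mul, abs_of_pos (by positivity)]
    calc (K : ℝ)⁻¹ / 2 * |∑ l, 2 * S.γ l * S.η l (Pi.single i 1) * pair (S.r l) (st.Q l) ψ|
        ≤ (K : ℝ)⁻¹ / 2 * (2 * (1 + e)) := mul_le_mul_of_nonneg_left h8 (by positivity)
      _ = (1 + e) / K := by ring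
      _ ≤ ε := by
          rw [div_le_iff₀ hK0]
          rw [div_lt_iff₀ hε] at hK2
          linarith

end Pool.Agent.Lib.MP_65fa9b_an_c
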