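import Pool.Agent.Lib.MP_65fa9b_an_c.Step3
import Pool.Agent.Lib.MP_65fa9b_an_c.CoreEnd

/-!
# The core theorem
-/

set_option autoImplicit false

open MeasureTheory Set Filter Topology

open scoped ContDiff NNReal

namespace Pool.Agent.Lib.MP_65fa9b_an_c

variable {ι L : Type*} [Fintype ι] [DecidableEq ι] [Fintype L] [DecidableEq L]

/-- **Core theorem.** -/
theorem core (S : Sys ι L) (hγ : ∑ l, S.γ l ≤ 1 / 2) (ν : Seminorm ℝ (ι → ℝ))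
    (hν : ∀ i, ν (Pi.single i 1) ≤ 1) {ε : ℝ} (hε : 0 < ε) :
    ∃ (Q : L → (ι → ℝ) → ℝ) (b : (L → ℝ) →ₗ[ℝ] ((ι → ℝ) → ℝ)),
      (∀ l, IsTest (Q l)) ∧ (∀ l, ∫ x, |Q l x| ≤ 3) ∧ (∀ α, ContDiff ℝ ∞ (b α)) ∧
      (∀ α : L → ℝ, ∑ l, (S.γ l * α l) • S.η l = 0 →
        (∀ x, ‖fderiv ℝ (b α) x‖ ≤ 6 * ‖α‖) ∧
        ∀ l, |pair (S.r l) (Q l) (b α) - α l / 2| ≤ ε * ‖α‖) ∧
      ∀ ψ : (ι → ℝ) → ℝ, ψ 0 = 0 → (∀ x y, |ψ x - ψ y| ≤ ν (x - y)) → ∀ i,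
        |∑ l, S.γ l * S.η l (Pi.single i 1) * pair (S.r l) (Q l) ψ| ≤ ε :=
  CoreEnd_core S hγ ν hν (fun hε hε' l w st => state_cons S ν hν hε hε' l w st) hε

end Pool.Agent.Lib.MP_65fa9b_an_c
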