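import Mathlib

/-!
# Profiles, systems and states

Plan of the proof that for every infinite-dimensional `X` and every finite metric space `F` the
identity of `Lip₀(F)` factors through `Lip₀(X)` with an absolute constant.

Let `ι` be a finite set of coordinates, `V = ℝ^ι` with the supremum norm, `ν` a seminorm on `V` with
`ν (e_i) ≤ 1`; let `L` be a finite set of labels, with functionals `η l` on `V` of norm at most `2`,
vectors `r l` with `η l (r l) = 1` and weights `γ l > 0`. For a test function `Q` let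
`pair v Q ψ = ∫ (∂_v ψ) Q`.

The core theorem produces test functions `Q l` with `∫ |Q l| ≤ 3` and maps `b α`, linear in
`α : L → ℝ`, such that
(a) `b α` is `6 ‖α‖`-Lipschitz for the supremum norm if `∑ γ l * α l • η l = 0`,
(b) `pair (r l) (Q l) (b α)` is close to `α l / 2` for these `α`,
(c) `∑ γ l * η l (e_i) * pair (r l) (Q l) ψ` is close to `0` for all `ψ` which are 1-Lipschitz for `ν`.

The construction has many steps, with scales `s` which decrease quickly. Each step has a label `l`.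
It adds to `b α` the function `α l * C(x) * s * h(η l x / s)`, where `h` is periodic, with slope
`k = -γ l` on the slow part of the period and a positive slope on the short fast part, and `C` is the
product of the cutoffs `χ (η l x / s)` of the earlier steps, supported in their slow parts. After a block
of steps, one for each label, the gradient on the slow parts is `- ∑ γ l * α l • η l = 0`; so the
Lipschitz constant does not grow. The density `P` is multiplied by `g (η l x / s)`, where `g` has mean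
one and lives on the slow part, and `Q l` is increased by `P * (1 - g (η l x / s)) / (2 * γ l)`. Since
`P * (1 - g (η l x / s))` oscillates, integration by parts shows that `pair w` of it tends to `0` if
`η l w = 0` (null lemma). Hence `pair v P` changes in the step by `- 2 * γ l * η l v` times the new part
of `pair (r l) (Q l)`, up to a small error. As `pair v P` is bounded by `ν v * ∫ P`, the sum over
`K` blocks is bounded, and dividing by `K` gives (c).

For a finite metric space `F` with base point `p` the coordinates correspond to the relations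
`dist x p * u_x - dist y p * u_y = dist x y * u_{x y}` between the unit vectors of the free space, and
(c) says that the new functionals satisfy the same relations, so that they define a map from
`Lip₀(X)` to `Lip₀(F)`; the map `V → ` (free space of `F`) given by `b` is composed with the coordinates
of an Auerbach system of `X`.
-/

set_option autoImplicit false

open MeasureTheory Set Filter Topology

open scoped ContDiff NNReal

namespace Pool.Agent.Lib.MP_65fa9b_an_c

/-- A profile: `k` is the derivative of a periodic sawtooth (`-γ` on the slow part), `χ` a cutoff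
supported in the slow part, `g` a density of mean one supported where `χ = 1`. -/
structure Profile (γ : ℝ) where
  k : ℝ → ℝ
  χ : ℝ → ℝ
  g : ℝ → ℝ
  k_smooth : ContDiff ℝ ∞ k
  χ_smooth : ContDiff ℝ ∞ χ
  g_smooth : ContDiff ℝ ∞ g
  k_per : Function.Periodic k 1
  χ_per : Function.Periodic χ 1
  g_per : Function.Periodic g 1
  k_ge : ∀ t, -γ ≤ k t
  k_le : ∀ t, k t ≤ 2
  k_int : ∫ t in (0 : ℝ)..1, k t = 0
  χ_nonneg : ∀ t, 0 ≤ χ t
  χ_le : ∀ t, χ t ≤ 1
  χ_k : ∀ t, χ t ≠ 0 → k t = -γ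
  g_nonneg : ∀ t, 0 ≤ g t
  g_le : ∀ t, g t ≤ 1 + 2 * γ
  g_int : ∫ t in (0 : ℝ)..1, g t = 1
  g_χ : ∀ t, g t ≠ 0 → ∀ᶠ s in 𝓝 t, χ s = 1

/-- Smooth functions with compact support. -/
def IsTest {ι : Type*} [Fintype ι] (Q : (ι → ℝ) → ℝ) : Prop :=
  ContDiff ℝ ∞ Q ∧ HasCompactSupport Q

/-- The functional `ψ ↦ ∫ (∂_v ψ) Q = - ∫ (∂_v Q) ψ`. -/
noncomputable def pair {ι : Type*} [Fintype ι] (v : ι → ℝ) (Q ψ : (ι → ℝ) → ℝ) : ℝ :=
  -∫ x, fderiv ℝ Q x v * ψ x

/-- A system of labels: linear functionals `η l`, directions `r l` with `η l (r l) = 1`,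
weights `γ l`. -/
structure Sys (ι L : Type*) [Fintype ι] [Fintype L] where
  η : L → ((ι → ℝ) →L[ℝ] ℝ)
  r : L → (ι → ℝ)
  γ : L → ℝ
  ηr : ∀ l, η l (r l) = 1
  norm_η : ∀ l, ‖η l‖ ≤ 2
  γ_pos : ∀ l, 0 < γ l
  γ_le : ∀ l, γ l ≤ 1 / 4

section

variable {ι L : Type*} [Fintype ι] [Fintype L] [DecidableEq L]

/-- The gradient on the slow part, after the steps in `w` (the last step is the head of `w`). -/
noncomputable def Sys.D (S : Sys ι L) (w : List L) (α : L → ℝ) : (ι → ℝ) →L[ℝ] ℝ :=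
  -(w.map fun l => (S.γ l * α l) • S.η l).sum

/-- The state of the construction after the steps in `w`. -/
structure State (S : Sys ι L) (ν : Seminorm ℝ (ι → ℝ)) [DecidableEq ι] (w : List L) (ε : ℝ) where
  P : (ι → ℝ) → ℝ
  C : (ι → ℝ) → ℝ
  b : (L → ℝ) →ₗ[ℝ] ((ι → ℝ) → ℝ)
  Q : L → (ι → ℝ) → ℝ
  P_test : IsTest P
  P_nonneg : ∀ x, 0 ≤ P x
  P_int : |(∫ x, P x) - 1| ≤ ε
  C_smooth : ContDiff ℝ ∞ C
  C_nonneg : ∀ x, 0 ≤ C x
  C_le : ∀ x, C x ≤ 1
  C_bdd : ∃ B, ∀ x, ‖fderiv ℝ C x‖ ≤ B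
  P_C : ∀ x, P x ≠ 0 → ∀ᶠ y in 𝓝 x, C y = 1
  b_smooth : ∀ α, ContDiff ℝ ∞ (b α)
  b_P : ∀ α x, P x ≠ 0 → fderiv ℝ (b α) x = S.D w α
  grad1 : ∀ (α : L → ℝ) (R : ℝ), (∀ w', w' <:+ w → ‖S.D w' α‖ ≤ R) → ∀ x, C x ≠ 0 →
    ‖fderiv ℝ (b α) x - C x • S.D w α‖ ≤ (1 - C x) * R + ε * ‖α‖
  grad2 : ∀ (α : L → ℝ) (R : ℝ), (∀ w', w' <:+ w → ‖S.D w' α‖ ≤ R) → ∀ x,
    ‖fderiv ℝ (b α) x‖ ≤ R + (4 + ε) * ‖α‖
  Q_test : ∀ l, IsTest (Q l)
  Q_int : ∀ l, ∫ x, |Q l x| ≤ 3 * (w.count l : ℝ)
  pairing : ∀ (α : L → ℝ) (l : L),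
    |pair (S.r l) (Q l) (b α) - (w.count l : ℝ) * (α l / 2)| ≤ ε * ‖α‖
  tele : ∀ ψ : (ι → ℝ) → ℝ, ψ 0 = 0 → (∀ x y, |ψ x - ψ y| ≤ ν (x - y)) → ∀ i,
    |∑ l, 2 * S.γ l * S.η l (Pi.single i 1) * pair (S.r l) (Q l) ψ +
      pair (Pi.single i 1) P ψ| ≤ 1 + ε

end

end Pool.Agent.Lib.MP_65fa9b_an_c
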