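import Pool.Agent.Lib.MP_65fa9b_an_c.Defs

/-!
# The system of labels of a finite metric space 
-/

set_option autoImplicit false

open MeasureTheory Set Filter Topology

open scoped ContDiff NNReal

namespace Pool.Agent.Lib.MP_65fa9b_an_c

section

variable {F : Type*} [MetricSpace F] [Fintype F] [DecidableEq F]

/-- The distance, with `1` on the diagonal. -/
noncomputable def labD (x y : F) : ℝ := if x = y then 1 else dist x y

/-- The coefficients of a function. -/
noncomputable def labα (p : F) : (F → ℝ) →ₗ[ℝ] ((F ⊕ F) ⊕ F × F → ℝ) where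
  toFun f l := match l with
    | Sum.inl (Sum.inl x) => f x / dist x p
    | Sum.inl (Sum.inr x) => f x / dist x p
    | Sum.inr q => (f q.1 - f q.2) / labD q.1 q.2
  map_add' f g := by
    funext l
    rcases l with (x | x) | q <;> simp <;> ring
  map_smul' c f := by
    funext l
    rcases l with (x | x) | q <;> simp <;> ring

lemma labα_spoke (p : F) (f : F → ℝ) (x : F) : labα p f (Sum.inl (Sum.inl x)) = f x / dist x p := rfl

lemma labα_partner (p : F) (f : F → ℝ) (x : F) : labα p f (Sum.inl (Sum.inr x)) = f x / dist x p := rfl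

lemma labα_rim (p : F) (f : F → ℝ) (q : F × F) :
    labα p f (Sum.inr q) = (f q.1 - f q.2) / labD q.1 q.2 := rfl

theorem labD_pos (x y : F) : 0 < labD x y := by
  unfold labD
  split_ifs with h
  · exact one_pos
  · exact dist_pos.2 h

theorem norm_labα_le (p : F) (f : F → ℝ) {K : ℝ} (hK : 0 ≤ K) (hp : f p = 0)
    (hf : ∀ x y, |f x - f y| ≤ K * dist x y) : ‖labα p f‖ ≤ K := by
  have h1 : ∀ x, |f x / dist x p| ≤ K := by
    intro x
    by_cases hx : x = p
    · rw [hx, hp, zero_div, abs_zero]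
      exact hK
    · have h := hf x p
      rw [hp, sub_zero] at h
      have hd : 0 < dist x p := dist_pos.2 hx
      rw [abs_div, abs_of_pos hd, div_le_iff₀ hd]
      exact h
  refine (pi_norm_le_iff_of_nonneg hK).2 fun l => ?_
  rcases l with (x | x) | q
  · rw [labα_spoke, Real.norm_eq_abs]
    exact h1 x
  · rw [labα_partner, Real.norm_eq_abs]
    exact h1 x
  · rw [labα_rim, Real.norm_eq_abs, abs_div, abs_of_pos (labD_pos _ _), div_le_iff₀ (labD_pos _ _)]
    by_cases hq : q.1 = q.2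
    · rw [hq, sub_self, abs_zero]
      exact mul_nonneg hK (labD_pos _ _).le
    · have h := hf q.1 q.2
      unfold labD
      rw [if_neg hq]
      exact h

/-- The coordinates. -/
noncomputable def labE (i : F ⊕ F × F) : (F ⊕ F × F → ℝ) →L[ℝ] ℝ :=
  ContinuousLinearMap.proj i

/-- The functionals. -/
noncomputable def labη (p : F) (δ : ℝ) : (F ⊕ F) ⊕ F × F → ((F ⊕ F × F → ℝ) →L[ℝ] ℝ)
  | Sum.inl (Sum.inl x) => labE (Sum.inl x) +
      (δ * dist x p) • ∑ y : F, (labE (Sum.inr (x, y)) - labE (Sum.inr (y, x)))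
  | Sum.inl (Sum.inr x) => -labE (Sum.inl x)
  | Sum.inr q => -labE (Sum.inr q)

/-- The directions. -/
noncomputable def labr : (F ⊕ F) ⊕ F × F → (F ⊕ F × F → ℝ)
  | Sum.inl (Sum.inl x) => Pi.single (Sum.inl x) 1
  | Sum.inl (Sum.inr x) => -Pi.single (Sum.inl x) 1
  | Sum.inr q => -Pi.single (Sum.inr q) 1

/-- The weights. -/
noncomputable def labγ (g δ : ℝ) : (F ⊕ F) ⊕ F × F → ℝ
  | Sum.inl (Sum.inl _) => g
  | Sum.inl (Sum.inr _) => g
  | Sum.inr q => g * δ * labD q.1 q.2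

lemma labη_spoke (p : F) (δ : ℝ) (x : F) (v : F ⊕ F × F → ℝ) :
    labη p δ (Sum.inl (Sum.inl x)) v =
      v (Sum.inl x) + δ * dist x p * ∑ y : F, (v (Sum.inr (x, y)) - v (Sum.inr (y, x))) := by
  simp [labη, labE]

lemma labη_partner (p : F) (δ : ℝ) (x : F) (v : F ⊕ F × F → ℝ) :
    labη p δ (Sum.inl (Sum.inr x)) v = -v (Sum.inl x) := by
  simp [labη, labE]

lemma labη_rim (p : F) (δ : ℝ) (q : F × F) (v : F ⊕ F × F → ℝ) :
    labη p δ (Sum.inr q) v = -v (Sum.inr q) := by
  simp [labη, labE]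

lemma lab_norm_proj (i : F ⊕ F × F) :
    ‖labE i‖ ≤ 1 := by
  refine ContinuousLinearMap.opNorm_le_bound _ zero_le_one fun v => ?_
  rw [one_mul]
  exact norm_le_pi_norm v i

lemma lab_norm_η (p : F) {δ dm : ℝ} (hδ : 0 ≤ δ) (hdm : ∀ x : F, dist x p ≤ dm)
    (h : 2 * δ * dm * (Fintype.card F : ℝ) ≤ 1) (l : (F ⊕ F) ⊕ F × F) : ‖labη p δ l‖ ≤ 2 := by
  rcases l with (x | x) | q
  · have h1 : ‖∑ y : F, (labE (Sum.inr (x, y)) - labE (Sum.inr (y, x)))‖ ≤
        ∑ _y : F, (2 : ℝ) := by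
      refine norm_sum_le_of_le _ fun y _ => ?_
      refine (norm_sub_le _ _).trans ?_
      have h2 := lab_norm_proj (F := F) (Sum.inr (x, y))
      have h3 := lab_norm_proj (F := F) (Sum.inr (y, x))
      linarith
    rw [Finset.sum_const, Finset.card_univ, nsmul_eq_mul] at h1
    have h4 : 0 ≤ δ * dist x p := mul_nonneg hδ dist_nonneg
    have h5 : ‖labη p δ (Sum.inl (Sum.inl x))‖ ≤
        1 + δ * dist x p * ((Fintype.card F : ℝ) * 2) := by
      unfold labη
      refine (norm_add_le _ _).trans (add_le_add (lab_norm_proj _) ?_)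
      rw [norm_smul, Real.norm_eq_abs, abs_of_nonneg h4]
      exact mul_le_mul_of_nonneg_left h1 h4
    have h6 : δ * dist x p * ((Fintype.card F : ℝ) * 2) ≤ δ * dm * ((Fintype.card F : ℝ) * 2) :=
      mul_le_mul_of_nonneg_right (mul_le_mul_of_nonneg_left (hdm x) hδ) (by positivity)
    linarith
  · unfold labη
    rw [norm_neg]
    exact (lab_norm_proj _).trans one_le_two
  · unfold labη
    rw [norm_neg]
    exact (lab_norm_proj _).trans one_le_two

lemma lab_ηr (p : F) (δ : ℝ) (l : (F ⊕ F) ⊕ F × F) : labη p δ l (labr l) = 1 := by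
  rcases l with (x | x) | q
  · rw [labη_spoke]
    simp [labr]
  · rw [labη_partner]
    simp [labr]
  · rw [labη_rim]
    simp [labr]

lemma lab_sum_zero (p : F) (g δ : ℝ) (f : F → ℝ) (hf : f p = 0) :
    ∑ l, (labγ g δ l * labα p f l) • labη p δ l = 0 := by
  have hq : ∀ x, f x / dist x p * dist x p = f x := by
    intro x
    by_cases hx : x = p
    · rw [hx, hf, zero_div, zero_mul]
    · exact div_mul_cancel₀ _ (dist_pos.2 hx).ne'
  ext1 v
  rw [sum_apply, Fintype.sum_sum_type, Fintype.sum_sum_type,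
    zero_apply]
  have h1 : ∀ x : F, ((labγ g δ (Sum.inl (Sum.inl x)) * labα p f (Sum.inl (Sum.inl x))) •
      labη p δ (Sum.inl (Sum.inl x))) v +
      ((labγ g δ (Sum.inl (Sum.inr x)) * labα p f (Sum.inl (Sum.inr x))) •
      labη p δ (Sum.inl (Sum.inr x))) v =
      ∑ y : F, g * δ * (f x * (v (Sum.inr (x, y)) - v (Sum.inr (y, x)))) := by
    intro x
    rw [smul_apply, smul_apply, labη_spoke, labη_partner,
      labα_spoke, labα_partner, ← Finset.mul_sum, ← Finset.mul_sum]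
    change g * (f x / dist x p) * _ + g * (f x / dist x p) * _ = _
    have h := hq x
    generalize ∑ y : F, (v (Sum.inr (x, y)) - v (Sum.inr (y, x))) = s
    linear_combination g * δ * s * h
  have h2 : ∀ q : F × F, ((labγ g δ (Sum.inr q) * labα p f (Sum.inr q)) •
      labη p δ (Sum.inr q)) v = -(g * δ * ((f q.1 - f q.2) * v (Sum.inr q))) := by
    intro q
    rw [smul_apply, labη_rim, labα_rim]
    change g * δ * labD q.1 q.2 * _ * _ = _
    have h3 : labD q.1 q.2 ≠ 0 := (labD_pos _ _).ne'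
    field_simp
  rw [← Finset.sum_add_distrib, Finset.sum_congr rfl fun x _ => h1 x,
    Finset.sum_congr rfl fun q _ => h2 q, Fintype.sum_prod_type, ← Finset.sum_add_distrib]
  have h3 : ∀ x : F, ∑ y : F, g * δ * (f x * (v (Sum.inr (x, y)) - v (Sum.inr (y, x)))) +
      ∑ y : F, -(g * δ * ((f (x, y).1 - f (x, y).2) * v (Sum.inr (x, y)))) =
      ∑ y : F, g * δ * (f y * v (Sum.inr (x, y))) -
        ∑ y : F, g * δ * (f x * v (Sum.inr (y, x))) := by
    intro x
    rw [← Finset.sum_add_distrib, ← Finset.sum_sub_distrib]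
    refine Finset.sum_congr rfl fun y _ => ?_
    ring
  rw [Finset.sum_congr rfl fun x _ => h3 x, Finset.sum_sub_distrib,
    Finset.sum_comm (f := fun x y => g * δ * (f x * v (Sum.inr (y, x))))]
  exact sub_self _

lemma lab_identity (p : F) (g δ : ℝ) (Φ : (F ⊕ F) ⊕ F × F → ℝ) (x y : F) :
    ∑ l, labγ g δ l * labη p δ l (Pi.single (Sum.inr (x, y)) 1) * Φ l =
        g * δ * (dist x p * Φ (Sum.inl (Sum.inl x)) - dist y p * Φ (Sum.inl (Sum.inl y)) -
          labD x y * Φ (Sum.inr (x, y))) := by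
  rw [Fintype.sum_sum_type, Fintype.sum_sum_type]
  have h1 : ∀ z : F, labγ g δ (Sum.inl (Sum.inl z)) *
      labη p δ (Sum.inl (Sum.inl z)) (Pi.single (Sum.inr (x, y)) 1) * Φ (Sum.inl (Sum.inl z)) =
      (if z = x then g * δ * (dist z p * Φ (Sum.inl (Sum.inl z))) else 0) -
        (if z = y then g * δ * (dist z p * Φ (Sum.inl (Sum.inl z))) else 0) := by
    intro z
    rw [labη_spoke]
    change g * _ * _ = _
    have h2 : ∑ t : F, ((Pi.single (Sum.inr (x, y)) 1 : F ⊕ F × F → ℝ) (Sum.inr (z, t)) -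
        (Pi.single (Sum.inr (x, y)) 1 : F ⊕ F × F → ℝ) (Sum.inr (t, z))) =
        (if z = x then 1 else 0) - (if z = y then 1 else 0) := by
      rw [Finset.sum_sub_distrib]
      have h3 : ∑ t : F, (Pi.single (Sum.inr (x, y)) 1 : F ⊕ F × F → ℝ) (Sum.inr (z, t)) =
          if z = x then 1 else 0 := by
        simp only [Pi.single_apply, Sum.inr.injEq, Prod.mk.injEq]
        by_cases hz : z = x
        · simp [hz]
        · simp [hz]
      have h4 : ∑ t : F, (Pi.single (Sum.inr (x, y)) 1 : F ⊕ F × F → ℝ) (Sum.inr (t, z)) =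
          if z = y then 1 else 0 := by
        simp only [Pi.single_apply, Sum.inr.injEq, Prod.mk.injEq]
        by_cases hz : z = y
        · simp [hz]
        · simp [hz]
      rw [h3, h4]
    rw [h2]
    have h5 : (Pi.single (Sum.inr (x, y)) 1 : F ⊕ F × F → ℝ) (Sum.inl z) = 0 := by
      simp
    rw [h5]
    split_ifs <;> ring
  have h2 : ∀ z : F, labγ g δ (Sum.inl (Sum.inr z)) *
      labη p δ (Sum.inl (Sum.inr z)) (Pi.single (Sum.inr (x, y)) 1) * Φ (Sum.inl (Sum.inr z)) =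
      0 := by
    intro z
    rw [labη_partner]
    have h5 : (Pi.single (Sum.inr (x, y)) 1 : F ⊕ F × F → ℝ) (Sum.inl z) = 0 := by
      simp
    rw [h5, neg_zero, mul_zero, zero_mul]
  have h3 : ∀ q : F × F, labγ g δ (Sum.inr q) *
      labη p δ (Sum.inr q) (Pi.single (Sum.inr (x, y)) 1) * Φ (Sum.inr q) =
      if q = (x, y) then -(g * δ * (labD q.1 q.2 * Φ (Sum.inr q))) else 0 := by
    intro q
    rw [labη_rim]
    change g * δ * labD q.1 q.2 * _ * _ = _
    simp only [Pi.single_apply, Sum.inr.injEq]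
    split_ifs <;> ring
  rw [Finset.sum_congr rfl fun z _ => h1 z, Finset.sum_congr rfl fun z _ => h2 z,
    Finset.sum_congr rfl fun q _ => h3 q, Finset.sum_sub_distrib,
    Finset.sum_ite_eq' Finset.univ x, Finset.sum_ite_eq' Finset.univ y,
    Finset.sum_ite_eq' Finset.univ (x, y), if_pos (Finset.mem_univ _), if_pos (Finset.mem_univ _),
    if_pos (Finset.mem_univ _), Finset.sum_const_zero]
  ring

/-- The system of labels: spokes `inl (inl x)`, partners `inl (inr x)`, rims `inr (x, y)`. -/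
theorem exists_lab (p : F) : ∃ (S : Sys (F ⊕ F × F) ((F ⊕ F) ⊕ F × F)) (c : ℝ), 0 < c ∧
    ∑ l, S.γ l ≤ 1 / 2 ∧
    (∀ x, S.r (Sum.inl (Sum.inl x)) = Pi.single (Sum.inl x) 1) ∧
    (∀ x, S.r (Sum.inl (Sum.inr x)) = -Pi.single (Sum.inl x) 1) ∧
    (∀ q, S.r (Sum.inr q) = -Pi.single (Sum.inr q) 1) ∧
    (∀ f : F → ℝ, f p = 0 → ∑ l, (S.γ l * labα p f l) • S.η l = 0) ∧
    ∀ (Φ : (F ⊕ F) ⊕ F × F → ℝ) (x y : F),
      ∑ l, S.γ l * S.η l (Pi.single (Sum.inr (x, y)) 1) * Φ l =
        c * (dist x p * Φ (Sum.inl (Sum.inl x)) - dist y p * Φ (Sum.inl (Sum.inl y)) -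
          labD x y * Φ (Sum.inr (x, y))) := by
  obtain ⟨dm, hdm1, hdm⟩ : ∃ dm : ℝ, 1 ≤ dm ∧ ∀ x y : F, dist x y ≤ dm := by
    refine ⟨1 + ∑ x : F, ∑ y : F, dist x y, ?_, fun x y => ?_⟩
    · have h : 0 ≤ ∑ x : F, ∑ y : F, dist x y :=
        Finset.sum_nonneg fun x _ => Finset.sum_nonneg fun y _ => dist_nonneg
      linarith
    · have h1 : dist x y ≤ ∑ y : F, dist x y :=
        Finset.single_le_sum (f := fun y => dist x y) (fun y _ => dist_nonneg)
          (Finset.mem_univ y)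
      have h2 : ∑ y : F, dist x y ≤ ∑ x : F, ∑ y : F, dist x y :=
        Finset.single_le_sum (f := fun x => ∑ y : F, dist x y)
          (fun x _ => Finset.sum_nonneg fun y _ => dist_nonneg) (Finset.mem_univ x)
      linarith
  have hlab : ∀ x y : F, labD x y ≤ dm := by
    intro x y
    unfold labD
    split_ifs
    · exact hdm1
    · exact hdm x y
  set n : ℝ := (Fintype.card F : ℝ) with hn
  have hn0 : 0 ≤ n := Nat.cast_nonneg _
  have hdm0 : 0 < dm := lt_of_lt_of_le one_pos hdm1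
  obtain ⟨δ, hδ0, hδ⟩ : ∃ δ : ℝ, 0 < δ ∧ 2 * δ * dm * (n + 1) = 1 :=
    ⟨1 / (2 * dm * (n + 1)), by positivity, by field_simp⟩
  obtain ⟨g, hg0, hg⟩ : ∃ g : ℝ, 0 < g ∧ 6 * g * (n + 1) = 1 :=
    ⟨1 / (6 * (n + 1)), by positivity, by field_simp⟩
  have hδdm : δ * dm ≤ 1 / 2 := by nlinarith [mul_nonneg (mul_nonneg hδ0.le hdm0.le) hn0]
  have hg4 : g ≤ 1 / 6 := by nlinarith [mul_nonneg hg0.le hn0]
  have hgn : g * n ≤ 1 / 6 := by nlinarith
  have hrim : ∀ q : F × F, g * δ * labD q.1 q.2 ≤ g * (δ * dm) := by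
    intro q
    rw [mul_assoc]
    exact mul_le_mul_of_nonneg_left (mul_le_mul_of_nonneg_left (hlab _ _) hδ0.le) hg0.le
  refine ⟨⟨labη p δ, labr, labγ g δ, lab_ηr p δ, lab_norm_η p hδ0.le (fun x => hdm x p) ?_, ?_, ?_⟩,
    g * δ, mul_pos hg0 hδ0, ?_, fun x => rfl, fun x => rfl, fun q => rfl,
    fun f hf => lab_sum_zero p g δ f hf, fun Φ x y => lab_identity p g δ Φ x y⟩
  · rw [← hn]
    nlinarith [mul_pos hδ0 hdm0]
  · intro l
    rcases l with (x | x) | q
    · exact hg0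
    · exact hg0
    · exact mul_pos (mul_pos hg0 hδ0) (labD_pos _ _)
  · intro l
    rcases l with (x | x) | q
    · change g ≤ 1 / 4
      linarith
    · change g ≤ 1 / 4
      linarith
    · change g * δ * labD q.1 q.2 ≤ 1 / 4
      refine (hrim q).trans ?_
      nlinarith
  · change ∑ l, labγ g δ l ≤ 1 / 2
    rw [Fintype.sum_sum_type, Fintype.sum_sum_type]
    have h1 : ∑ _x : F, g = n * g := by
      rw [Finset.sum_const, Finset.card_univ, nsmul_eq_mul]
    have h2 : ∑ q : F × F, labγ g δ (Sum.inr q) ≤ ∑ _q : F × F, g * (δ * dm) :=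
      Finset.sum_le_sum fun q _ => hrim q
    rw [Finset.sum_const, Finset.card_univ, nsmul_eq_mul, Fintype.card_prod, Nat.cast_mul,
      ← hn] at h2
    change ∑ _x : F, g + ∑ _x : F, g + _ ≤ _
    rw [h1]
    have h3 : n * n * (g * (δ * dm)) ≤ n * g / 2 := by
      have h4 : δ * dm * n ≤ 1 / 2 := by nlinarith [mul_pos hδ0 hdm0]
      have h5 : 0 ≤ n * g := mul_nonneg hn0 hg0.le
      nlinarith
    nlinarith

end

end Pool.Agent.Lib.MP_65fa9b_an_c
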