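import Pool.Agent.Lib.MP_65fa9b_an.Basic

/-!
# Correcting an almost factorization (E3), and completeness of `Lip₀` of a finite space
-/

set_option autoImplicit false

open Metric Set Filter Topology

namespace Pool.Agent.Lib.MP_65fa9b_an_c

open Pool.Agent.Lib.MP_65fa9b_an

/-- If `R ∘ J` is within `1/2` of the identity then the identity factors. -/
theorem facC_of_almost {U V : Type*} [NormedAddCommGroup U] [NormedSpace ℝ U]
    [NormedAddCommGroup V] [NormedSpace ℝ V] [CompleteSpace U] {a b : ℝ} (J : U →L[ℝ] V)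
    (R : V →L[ℝ] U) (hJ : ‖J‖ ≤ a) (hR : ‖R‖ ≤ b) (h : ∀ f, ‖R (J f) - f‖ ≤ 1 / 2 * ‖f‖) :
    FacC (max a (2 * b)) U V := by
  set T : U →L[ℝ] U := R.comp J with hT
  have hsub : ‖(1 : U →L[ℝ] U) - T‖ ≤ 1 / 2 := by
    refine ContinuousLinearMap.opNorm_le_bound _ (by norm_num) fun f => ?_
    have := h f
    rw [← norm_neg] at this
    simpa [hT, neg_sub] using this
  have hlt : ‖(1 : U →L[ℝ] U) - T‖ < 1 := lt_of_le_of_lt hsub (by norm_num)
  have hu : IsUnit T := by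
    have := isUnit_one_sub_of_norm_lt_one hlt
    rwa [sub_sub_cancel] at this
  obtain ⟨u, hu⟩ := hu
  set S : U →L[ℝ] U := ↑(u⁻¹) with hS
  have hST : ∀ f, S (T f) = f := fun f => by
    have h1 : S * T = 1 := by rw [hS, ← hu]; exact Units.inv_mul u
    have h2 := congrArg (fun A : U →L[ℝ] U => A f) h1
    simpa using h2
  have hTS : ∀ f, T (S f) = f := fun f => by
    have h1 : T * S = 1 := by rw [hS, ← hu]; exact Units.mul_inv u
    have h2 := congrArg (fun A : U →L[ℝ] U => A f) h1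
    simpa using h2
  have hSn : ∀ f, ‖S f‖ ≤ 2 * ‖f‖ := fun f => by
    have h1 := h (S f)
    have h2 : R (J (S f)) = f := hTS f
    rw [h2] at h1
    have h3 : ‖S f‖ ≤ ‖f‖ + ‖f - S f‖ := by
      calc ‖S f‖ = ‖f - (f - S f)‖ := by rw [sub_sub_cancel]
        _ ≤ ‖f‖ + ‖f - S f‖ := norm_sub_le _ _
    linarith
  have hb : 0 ≤ b := (norm_nonneg R).trans hR
  refine ⟨J, S.comp R, fun f => hST f, hJ.trans (le_max_left _ _), ?_⟩
  refine (ContinuousLinearMap.opNorm_le_bound _ (by positivity) fun g => ?_).trans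
    (le_max_right a (2 * b))
  show ‖S (R g)‖ ≤ 2 * b * ‖g‖
  calc ‖S (R g)‖ ≤ 2 * ‖R g‖ := hSn _
    _ ≤ 2 * (b * ‖g‖) := by
        refine mul_le_mul_of_nonneg_left ?_ (by norm_num)
        exact (R.le_opNorm g).trans (mul_le_mul_of_nonneg_right hR (norm_nonneg _))
    _ = 2 * b * ‖g‖ := by ring

/-- `Lip₀` of a finite space is finite-dimensional. -/
theorem lip0_finiteDimensional {M : Type*} [MetricSpace M] [Finite M] (p : M) :
    FiniteDimensional ℝ (Lip0 M p) := by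
  let e : Lip0 M p →ₗ[ℝ] (M → ℝ) :=
    { toFun := fun f x => f x
      map_add' := fun f g => rfl
      map_smul' := fun c f => rfl }
  exact FiniteDimensional.of_injective e fun f g hfg => DFunLike.ext _ _ fun x => congrFun hfg x

/-- `Lip₀` of a finite space is complete. -/
theorem lip0_complete {M : Type*} [MetricSpace M] [Finite M] (p : M) :
    CompleteSpace (Lip0 M p) := by
  have := lip0_finiteDimensional p
  exact FiniteDimensional.complete ℝ (Lip0 M p)

/-- The form used for the local condition. -/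
theorem fac_of_almost {M : Type*} [MetricSpace M] [Finite M] (p : M) {V : Type*}
    [NormedAddCommGroup V] [NormedSpace ℝ V] {a b : ℝ} (J : Lip0 M p →L[ℝ] V)
    (R : V →L[ℝ] Lip0 M p) (hJ : ‖J‖ ≤ a) (hR : ‖R‖ ≤ b)
    (h : ∀ (f : Lip0 M p) (x y : M), |(R (J f) x - f x) - (R (J f) y - f y)| ≤
      1 / 2 * ‖f‖ * dist x y) :
    ∃ (J' : Lip0 M p →L[ℝ] V) (R' : V →L[ℝ] Lip0 M p),
      (∀ f, R' (J' f) = f) ∧ ‖J'‖ ≤ max a (2 * b) ∧ ‖R'‖ ≤ max a (2 * b) := by
  have := lip0_complete p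
  refine facC_of_almost J R hJ hR fun f => ?_
  refine Lip0.norm_le _ (by positivity) fun x y => ?_
  exact h f x y

/-- The same with a pointwise error. -/
theorem fac_of_almost_pointwise {M : Type*} [MetricSpace M] [Finite M] (p : M) {V : Type*}
    [NormedAddCommGroup V] [NormedSpace ℝ V] {a b δ : ℝ} (J : Lip0 M p →L[ℝ] V)
    (R : V →L[ℝ] Lip0 M p) (hJ : ‖J‖ ≤ a) (hR : ‖R‖ ≤ b) (hδ : ∀ x y : M, x ≠ y → δ ≤ dist x y)
    (h : ∀ (f : Lip0 M p) (x : M), |R (J f) x - f x| ≤ δ / 4 * ‖f‖) :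
    ∃ (J' : Lip0 M p →L[ℝ] V) (R' : V →L[ℝ] Lip0 M p),
      (∀ f, R' (J' f) = f) ∧ ‖J'‖ ≤ max a (2 * b) ∧ ‖R'‖ ≤ max a (2 * b) := by
  refine fac_of_almost p J R hJ hR fun f x y => ?_
  rcases eq_or_ne x y with rfl | hxy
  · simp
  · have h1 := h f x
    have h2 := h f y
    have h3 : δ / 2 * ‖f‖ ≤ 1 / 2 * ‖f‖ * dist x y := by
      have := mul_le_mul_of_nonneg_right (hδ x y hxy) (norm_nonneg f)
      linarith
    calc _ ≤ |R (J f) x - f x| + |R (J f) y - f y| := abs_sub _ _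
      _ ≤ _ := by linarith

end Pool.Agent.Lib.MP_65fa9b_an_c
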