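import Pool.Agent.Lib.MP_65fa9b_an_c.Defs

/-!
# The functionals

`integral_mul_fderiv_eq_neg_fderiv_mul_of_integrable`, `LipschitzWith.integral_lineDeriv_mul_eq`.
-/

set_option autoImplicit false

open MeasureTheory Set Filter Topology

open scoped ContDiff NNReal

namespace Pool.Agent.Lib.MP_65fa9b_an_c

variable {ι : Type*} [Fintype ι]

theorem Pair_bound (ν : Seminorm ℝ (ι → ℝ)) : ∃ C : ℝ, 0 ≤ C ∧ ∀ x, ν x ≤ C * ‖x‖ := by
  classical
  refine ⟨∑ i, ν (Pi.single i 1), Finset.sum_nonneg fun i _ => apply_nonneg ν _, fun x => ?_⟩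
  have h1 : x = ∑ i, x i • (Pi.single i 1 : ι → ℝ) := by
    have := pi_eq_sum_univ' x
    refine this.trans (Finset.sum_congr rfl fun i _ => ?_)
    congr 1
  have h2 : ν (∑ i, x i • (Pi.single i 1 : ι → ℝ)) ≤ ∑ i, ν (x i • (Pi.single i 1 : ι → ℝ)) :=
    Finset.le_sum_of_subadditive ν (map_zero ν).le (map_add_le_add ν) _ _
  conv_lhs => rw [h1]
  refine h2.trans ?_
  rw [Finset.sum_mul]
  refine Finset.sum_le_sum fun i _ => ?_
  rw [map_smul_eq_mul, mul_comm, Real.norm_eq_abs]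
  exact mul_le_mul_of_nonneg_left (norm_le_pi_norm x i) (apply_nonneg ν _)

theorem Pair_cont (v : ι → ℝ) {Q : (ι → ℝ) → ℝ} (hQ : IsTest Q) :
    Continuous (fun x => fderiv ℝ Q x v) ∧ HasCompactSupport (fun x => fderiv ℝ Q x v) := by
  refine ⟨(hQ.1.continuous_fderiv (by simp)).clm_apply continuous_const, ?_⟩
  exact hQ.2.fderiv_apply ℝ v

theorem Pair_int (v : ι → ℝ) {Q ψ : (ι → ℝ) → ℝ} (hQ : IsTest Q) (hψ : Continuous ψ) :
    Integrable (fun x => fderiv ℝ Q x v * ψ x) :=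
  (((Pair_cont v hQ).1).mul hψ).integrable_of_hasCompactSupport ((Pair_cont v hQ).2.mul_right)

/-- Bound by the `L¹` norm. -/
theorem abs_pair_le (ν : Seminorm ℝ (ι → ℝ)) (v : ι → ℝ) {Q ψ : (ι → ℝ) → ℝ} (hQ : IsTest Q)
    {K : ℝ} (hψ : ∀ x y, |ψ x - ψ y| ≤ K * ν (x - y)) : |pair v Q ψ| ≤ K * ν v * ∫ x, |Q x| := by
  obtain ⟨C, hC, hν⟩ := Pair_bound ν
  have hψL : LipschitzWith (|K| * C).toNNReal ψ := by
    refine LipschitzWith.of_dist_le_mul fun x y => ?_
    rw [Real.dist_eq, Real.coe_toNNReal _ (by positivity), dist_eq_norm, mul_assoc]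
    refine (hψ x y).trans ?_
    refine (mul_le_mul_of_nonneg_right (le_abs_self K) (apply_nonneg ν _)).trans ?_
    exact mul_le_mul_of_nonneg_left (hν _) (abs_nonneg K)
  obtain ⟨D, hD⟩ := ContDiff.lipschitzWith_of_hasCompactSupport hQ.2 hQ.1 (by simp)
  have hparts := LipschitzWith.integral_lineDeriv_mul_eq (μ := volume) hψL hD hQ.2 v
  have h1 : pair v Q ψ = ∫ x, lineDeriv ℝ ψ x v * Q x := by
    rw [hparts]
    unfold pair
    rw [← integral_neg]
    refine integral_congr_ae (Filter.Eventually.of_forall fun x => ?_)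
    change -(fderiv ℝ Q x v * ψ x) = lineDeriv ℝ Q x (-v) * ψ x
    have hd : DifferentiableAt ℝ Q x := (hQ.1.differentiable (by simp)) x
    rw [hd.lineDeriv_eq_fderiv, map_neg]
    ring
  have hKv : 0 ≤ K * ν v := by
    have h2 := hψ v 0
    rw [sub_zero] at h2
    exact (abs_nonneg _).trans h2
  have h3 : ∀ x, |lineDeriv ℝ ψ x v| ≤ K * ν v := by
    intro x
    have h4 : LipschitzWith (K * ν v).toNNReal (fun t : ℝ => ψ (x + t • v)) := by
      refine LipschitzWith.of_dist_le_mul fun t u => ?_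
      rw [Real.dist_eq, Real.coe_toNNReal _ hKv, Real.dist_eq]
      refine (hψ _ _).trans (le_of_eq ?_)
      rw [add_sub_add_left_eq_sub, ← sub_smul, map_smul_eq_mul, Real.norm_eq_abs]
      ring
    have h5 := norm_deriv_le_of_lipschitz (x₀ := (0 : ℝ)) h4
    rw [Real.coe_toNNReal _ hKv, Real.norm_eq_abs] at h5
    exact h5
  rw [h1, ← integral_const_mul, ← Real.norm_eq_abs]
  refine norm_integral_le_of_norm_le ?_ (Filter.Eventually.of_forall fun x => ?_)
  · exact ((hQ.1.continuous.integrable_of_hasCompactSupport hQ.2).abs).const_mul _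
  · rw [Real.norm_eq_abs, abs_mul]
    exact mul_le_mul_of_nonneg_right (h3 x) (abs_nonneg _)

/-- Integration by parts for `C¹` functions. -/
theorem pair_eq_integral_fderiv (v : ι → ℝ) {Q ψ : (ι → ℝ) → ℝ} (hQ : IsTest Q)
    (hψ : ContDiff ℝ 1 ψ) : pair v Q ψ = ∫ x, fderiv ℝ ψ x v * Q x := by
  have hQc : Continuous Q := hQ.1.continuous
  have hd : Continuous (fun x => fderiv ℝ ψ x v) :=
    (hψ.continuous_fderiv (by simp)).clm_apply continuous_const
  have h1 : Integrable (fun x => Q x * fderiv ℝ ψ x v) :=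
    (hQc.mul hd).integrable_of_hasCompactSupport hQ.2.mul_right
  have h2 : Integrable (fun x => Q x * ψ x) :=
    (hQc.mul hψ.continuous).integrable_of_hasCompactSupport hQ.2.mul_right
  have h3 := integral_mul_fderiv_eq_neg_fderiv_mul_of_integrable (μ := (volume : Measure (ι → ℝ)))
    (Pair_int v hQ hψ.continuous) h1 h2 (fun x _ => (hQ.1.differentiable (by simp)) x)
    (fun x _ => (hψ.differentiable (by simp)) x)
  unfold pair
  rw [← h3]
  refine integral_congr_ae (Filter.Eventually.of_forall fun x => ?_)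
  exact mul_comm _ _

theorem pair_sub_const (v : ι → ℝ) {Q ψ : (ι → ℝ) → ℝ} (hQ : IsTest Q) (hψ : Continuous ψ)
    (c : ℝ) : pair v Q (fun x => ψ x - c) = pair v Q ψ := by
  have h1 : ∫ x, fderiv ℝ Q x v * c = 0 := by
    have h2 := pair_eq_integral_fderiv v (ψ := fun _ => c) hQ contDiff_const
    have h3 : ∀ x : ι → ℝ, fderiv ℝ (fun _ : ι → ℝ => c) x v * Q x = 0 := by
      intro x
      rw [fderiv_fun_const]
      simp
    unfold pair at h2
    simp only [h3, integral_zero, neg_eq_zero] at h2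
    exact h2
  unfold pair
  have h4 : ∀ x, fderiv ℝ Q x v * (ψ x - c) = fderiv ℝ Q x v * ψ x - fderiv ℝ Q x v * c :=
    fun x => mul_sub _ _ _
  simp only [h4]
  rw [integral_sub (Pair_int v hQ hψ) (Pair_int v hQ continuous_const), h1, sub_zero]

theorem pair_add (v : ι → ℝ) {Q ψ φ : (ι → ℝ) → ℝ} (hQ : IsTest Q) (hψ : Continuous ψ)
    (hφ : Continuous φ) : pair v Q (fun x => ψ x + φ x) = pair v Q ψ + pair v Q φ := by
  unfold pair
  simp only [mul_add]
  rw [integral_add (Pair_int v hQ hψ) (Pair_int v hQ hφ), neg_add]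

theorem pair_smul (v : ι → ℝ) (Q ψ : (ι → ℝ) → ℝ) (c : ℝ) :
    pair v Q (fun x => c * ψ x) = c * pair v Q ψ := by
  unfold pair
  rw [mul_neg, ← integral_const_mul]
  congr 1
  refine integral_congr_ae (Filter.Eventually.of_forall fun x => ?_)
  change fderiv ℝ Q x v * (c * ψ x) = c * (fderiv ℝ Q x v * ψ x)
  ring

/-- Weak* continuity. -/
theorem abs_pair_le_sup (v : ι → ℝ) {Q : (ι → ℝ) → ℝ} (hQ : IsTest Q) :
    ∃ B, 0 ≤ B ∧ ∀ (ψ : (ι → ℝ) → ℝ) (m : ℝ), (∀ x, |ψ x| ≤ m) → |pair v Q ψ| ≤ B * m := by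
  refine ⟨∫ x, |fderiv ℝ Q x v|, integral_nonneg fun x => abs_nonneg _, fun ψ m hm => ?_⟩
  unfold pair
  rw [abs_neg, ← integral_mul_const, ← Real.norm_eq_abs]
  refine norm_integral_le_of_norm_le ?_ (Filter.Eventually.of_forall fun x => ?_)
  · exact (((Pair_cont v hQ).1.integrable_of_hasCompactSupport (Pair_cont v hQ).2).abs).mul_const _
  · rw [Real.norm_eq_abs, abs_mul]
    exact mul_le_mul_of_nonneg_left (hm x) (abs_nonneg _)

end Pool.Agent.Lib.MP_65fa9b_an_c
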