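import Pool.Agent.Lib.MP_65fa9b_an.LocDef
import Pool.Agent.Lib.MP_65fa9b_an_c.Core
import Pool.Agent.Lib.MP_65fa9b_an_c.Pair
import Pool.Agent.Lib.MP_65fa9b_an_c.Auer
import Pool.Agent.Lib.MP_65fa9b_an_c.Lab
import Pool.Agent.Lib.MP_65fa9b_an_c.Neu

/-!
# The local condition for infinite-dimensional spaces

Let `F ⊆ X` be finite, `p ∈ F`, `D x y = if x = y then 1 else dist x y`, `n = card F`, `d ≥ all distances`.
* Coordinates `ι = F ⊕ F × F`; labels `L = (F ⊕ F) ⊕ (F × F)`; the system of labels: file `Lab`.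
* Auerbach system `x_i, ξ_i`, `i ∈ ι`; `S z = (ξ_i z)_i`, `T t = ∑ t_i x_i`, `ν t = ‖T t‖`; `S (T t) = t`.
* `core` with small `ε`: `J f z = b (α f) (S z) - b (α f) 0`, norm `≤ 6`;
  `R ψ x = 2 dist x p * pair (r (spoke x)) (Q (spoke x)) (ψ ∘ T)`.
  Last clause of `core` at `i = inr (x,y)`: `|dist x p Φ_x - dist y p Φ_y - D x y Φ_{(x,y)}| ≤ ε / c` on
  1-Lipschitz `ψ`, and `|Φ_{(x,y)}| ≤ 3` by `abs_pair_le`; so `‖R‖ ≤ 8` if `ε` is small.
  `R (J f) x = f x + O(2 ε d ‖f‖)`, so `‖R J - 1‖ ≤ 1/2` on `Lip0 F p` if `ε` is small (`d / min distance`);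
  `Lip0 F p` is finite-dimensional, `R J` is invertible with inverse of norm `≤ 2`; replace `R` by `(RJ)⁻¹ R`.
-/

set_option autoImplicit false

open MeasureTheory Set Filter Topology

open scoped ContDiff NNReal

namespace Pool.Agent.Lib.MP_65fa9b_an_c

open Pool.Agent.Lib.MP_65fa9b_an

/-- Elements of `Lip₀` from a bound. -/
def Loc_mk {M : Type*} [MetricSpace M] {p : M} (f : M → ℝ) (h0 : f p = 0) {K : ℝ} (hK : 0 ≤ K)
    (h : ∀ x y, |f x - f y| ≤ K * dist x y) : Lip0 M p :=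
  ⟨f, h0, ⟨K, hK⟩, LipschitzWith.of_dist_le_mul fun x y => by
    rw [Real.dist_eq]
    exact h x y⟩

/-- Linear maps into `Lip₀` from pointwise data. -/
theorem Loc_clm {V : Type*} [NormedAddCommGroup V] [NormedSpace ℝ V] {M : Type*} [MetricSpace M]
    {p : M} (A : V → M → ℝ) {K : ℝ} (hK : 0 ≤ K) (hadd : ∀ u v x, A (u + v) x = A u x + A v x)
    (hsmul : ∀ (c : ℝ) u x, A (c • u) x = c * A u x) (h0 : ∀ v, A v p = 0)
    (h : ∀ v x y, |A v x - A v y| ≤ K * ‖v‖ * dist x y) :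
    ∃ B : V →L[ℝ] Lip0 M p, ‖B‖ ≤ K ∧ ∀ v x, B v x = A v x := by
  let B0 : V →ₗ[ℝ] Lip0 M p :=
    { toFun := fun v => Loc_mk (A v) (h0 v) (mul_nonneg hK (norm_nonneg v)) (h v)
      map_add' := fun u v => DFunLike.ext _ _ fun x => hadd u v x
      map_smul' := fun c v => DFunLike.ext _ _ fun x => hsmul c v x }
  refine ⟨B0.mkContinuous K fun v => Lip0.norm_le _ (mul_nonneg hK (norm_nonneg v)) (h v), ?_,
    fun v x => rfl⟩
  exact B0.mkContinuous_norm_le hK _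

/-- A positive lower bound of the distances and an upper bound. -/
theorem Loc_dist (F : Type*) [MetricSpace F] [Finite F] :
    ∃ δ d : ℝ, 0 < δ ∧ 0 < d ∧ (∀ x y : F, x ≠ y → δ ≤ dist x y) ∧ ∀ x y : F, dist x y ≤ d := by
  have h1 : ∃ δ : ℝ, 0 < δ ∧ ∀ x y : F, x ≠ y → δ ≤ dist x y := by
    have hfin : (univ : Set (F × F)).Finite := Set.finite_univ
    by_cases hne : ∃ q : F × F, q.1 ≠ q.2
    · obtain ⟨q0, hq0⟩ := hne
      obtain ⟨q, hq, hmin⟩ := Set.exists_min_image {q : F × F | q.1 ≠ q.2}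
        (fun q => dist q.1 q.2) (Set.toFinite _) ⟨q0, hq0⟩
      exact ⟨dist q.1 q.2, dist_pos.2 hq, fun x y hxy => hmin (x, y) hxy⟩
    · push Not at hne
      exact ⟨1, one_pos, fun x y hxy => absurd (hne (x, y)) hxy⟩
  obtain ⟨δ, hδ, h1⟩ := h1
  have h2 : BddAbove (range fun q : F × F => dist q.1 q.2) := (Set.finite_range _).bddAbove
  obtain ⟨d, hd⟩ := h2
  refine ⟨δ, max d 1, hδ, lt_of_lt_of_le one_pos (le_max_right _ _), h1, fun x y => ?_⟩
  exact (hd ⟨(x, y), rfl⟩).trans (le_max_left _ _)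

/-- The map `T`. -/
theorem Loc_T {X : Type*} [NormedAddCommGroup X] [NormedSpace ℝ X] {ι : Type*} [Fintype ι]
    [DecidableEq ι] (x : ι → X) (ξ : ι → (X →L[ℝ] ℝ)) (hx : ∀ i, ‖x i‖ ≤ 1)
    (hξ : ∀ i, ‖ξ i‖ ≤ 1) (hxξ : ∀ i j, ξ i (x j) = if i = j then 1 else 0) :
    ∃ (T : (ι → ℝ) →ₗ[ℝ] X) (S : X → (ι → ℝ)), Continuous T ∧ (∀ i, ‖T (Pi.single i 1)‖ ≤ 1) ∧
      S 0 = 0 ∧ (∀ t, S (T t) = t) ∧ ∀ z z', ‖S z - S z'‖ ≤ ‖z - z'‖ := by
  refine ⟨Fintype.linearCombination ℝ x, fun z i => ξ i z, ?_, fun i => ?_, ?_, fun t => ?_,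
    fun z z' => ?_⟩
  · exact LinearMap.continuous_of_finiteDimensional _
  · rw [Fintype.linearCombination_apply_single, one_smul]
    exact hx i
  · funext i
    exact map_zero _
  · funext i
    change ξ i (Fintype.linearCombination ℝ x t) = t i
    rw [Fintype.linearCombination_apply, map_sum]
    simp [hxξ]
  · refine (pi_norm_le_iff_of_nonneg (norm_nonneg _)).2 fun i => ?_
    change ‖ξ i z - ξ i z'‖ ≤ _
    rw [← map_sub]
    refine ((ξ i).le_opNorm _).trans ?_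
    exact mul_le_of_le_one_left (norm_nonneg _) (hξ i)

theorem Loc_main {X : Type*} [NormedAddCommGroup X] [NormedSpace ℝ X]
    (hX : ¬ FiniteDimensional ℝ X) (F : Type*) [MetricSpace F] [Finite F] (p : F) :
    ∃ (J : Lip0 F p →L[ℝ] Lip0 X (0 : X)) (R : Lip0 X (0 : X) →L[ℝ] Lip0 F p),
      (∀ f, R (J f) = f) ∧ ‖J‖ ≤ 16 ∧ ‖R‖ ≤ 16 := by
  classical
  have := Fintype.ofFinite F
  obtain ⟨δ, d, hδ, hd, hδd, hdd⟩ := Loc_dist F
  obtain ⟨S, c, hc, hγ, hr1, -, hr3, hz, hid⟩ := exists_lab p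
  obtain ⟨x, ξ, hx, hξ, hxξ⟩ := auerbach hX (F ⊕ F × F)
  obtain ⟨T, U, hTc, hT1, hU0, hUT, hU⟩ := Loc_T x ξ hx hξ hxξ
  set ν : Seminorm ℝ (F ⊕ F × F → ℝ) := (normSeminorm ℝ X).comp T with hν
  have hνT : ∀ t, ν t = ‖T t‖ := fun t => rfl
  obtain ⟨ε, hε, hε1, hε2⟩ : ∃ ε : ℝ, 0 < ε ∧ 2 * d * ε ≤ δ / 4 ∧ ε ≤ c * δ := by
    refine ⟨min (δ / (8 * d)) (c * δ), by positivity, ?_, min_le_right _ _⟩
    calc 2 * d * min (δ / (8 * d)) (c * δ) ≤ 2 * d * (δ / (8 * d)) :=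
          mul_le_mul_of_nonneg_left (min_le_left _ _) (by positivity)
      _ = δ / 4 := by field_simp; ring
  obtain ⟨Q, b, hQt, hQ3, hbs, hα, htele⟩ := core S hγ ν (fun i => hT1 i) hε
  -- the coefficients
  have hαn : ∀ f : Lip0 F p, ‖labα p f‖ ≤ ‖f‖ := fun f =>
    norm_labα_le p f (norm_nonneg f) f.map_base f.abs_sub_le
  have hgrad : ∀ (f : Lip0 F p) t, ‖fderiv ℝ (b (labα p f)) t‖ ≤ 6 * ‖f‖ := fun f t =>
    ((hα _ (hz f f.map_base)).1 t).trans (mul_le_mul_of_nonneg_left (hαn f) (by norm_num))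
  -- the map `J`
  obtain ⟨J, hJ, hJa⟩ := Loc_clm (V := Lip0 F p) (M := X) (p := (0 : X))
    (fun f z => b (labα p f) (U z) - b (labα p f) 0) (K := 6) (by norm_num) (fun f g z => by
      have h1 : labα p (⇑(f + g)) = labα p f + labα p g := by
        rw [← map_add]; rfl
      simp only [h1, map_add, Pi.add_apply]
      ring) (fun a f z => by
      have h1 : labα p (⇑(a • f)) = a • labα p f := by
        rw [← map_smul]; rfl
      simp only [h1, map_smul, Pi.smul_apply, smul_eq_mul]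
      ring) (fun f => by simp only [hU0, sub_self]) (fun f z z' => by
      have h1 : ‖b (labα p f) (U z) - b (labα p f) (U z')‖ ≤ 6 * ‖f‖ * ‖U z - U z'‖ :=
        Convex.norm_image_sub_le_of_norm_fderiv_le (s := univ)
          (fun t _ => ((hbs (labα p f)).differentiable (by simp)).differentiableAt)
          (fun t _ => hgrad f t) convex_univ (mem_univ _) (mem_univ _)
      have h2 : b (labα p f) (U z) - b (labα p f) 0 - (b (labα p f) (U z') - b (labα p f) 0) =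
          b (labα p f) (U z) - b (labα p f) (U z') := by ring
      rw [h2, ← Real.norm_eq_abs, dist_eq_norm]
      exact h1.trans (mul_le_mul_of_nonneg_left (hU z z') (by positivity)))
  -- the functionals
  have hψc : ∀ ψ : Lip0 X (0 : X), Continuous fun t => ψ (T t) := fun ψ => by
    obtain ⟨K, hK⟩ := ψ.2.2
    exact hK.continuous.comp hTc
  have hψL : ∀ (ψ : Lip0 X (0 : X)) (s t : F ⊕ F × F → ℝ),
      |ψ (T s) - ψ (T t)| ≤ ‖ψ‖ * ν (s - t) := fun ψ s t => by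
    rw [hνT, map_sub, ← dist_eq_norm]
    exact ψ.abs_sub_le _ _
  have hνr : ∀ q, ν (S.r (Sum.inr q)) ≤ 1 := fun q => by
    rw [hr3, hνT, map_neg, norm_neg]
    exact hT1 _
  have hrim : ∀ (ψ : Lip0 X (0 : X)) (q : F × F),
      |pair (S.r (Sum.inr q)) (Q (Sum.inr q)) fun t => ψ (T t)| ≤ 3 * ‖ψ‖ := fun ψ q => by
    refine (abs_pair_le ν _ (hQt _) (hψL ψ)).trans ?_
    have h1 : ‖ψ‖ * ν (S.r (Sum.inr q)) ≤ ‖ψ‖ := mul_le_of_le_one_right (norm_nonneg _) (hνr q)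
    calc ‖ψ‖ * ν (S.r (Sum.inr q)) * ∫ x, |Q (Sum.inr q) x|
        ≤ ‖ψ‖ * ∫ x, |Q (Sum.inr q) x| :=
          mul_le_mul_of_nonneg_right h1 (integral_nonneg fun _ => abs_nonneg _)
      _ ≤ ‖ψ‖ * 3 := mul_le_mul_of_nonneg_left (hQ3 _) (norm_nonneg _)
      _ = 3 * ‖ψ‖ := mul_comm _ _
  set Φ : Lip0 X (0 : X) → ((F ⊕ F) ⊕ F × F → ℝ) := fun ψ l =>
    pair (S.r l) (Q l) fun t => ψ (T t) with hΦ
  have hΦadd : ∀ ψ φ l, Φ (ψ + φ) l = Φ ψ l + Φ φ l := fun ψ φ l =>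
    pair_add _ (hQt l) (hψc ψ) (hψc φ)
  have hΦsmul : ∀ (a : ℝ) ψ l, Φ (a • ψ) l = a * Φ ψ l := fun a ψ l =>
    pair_smul _ _ _ a
  have hkey1 : ∀ (ψ : Lip0 X (0 : X)), ‖ψ‖ ≤ 1 → ∀ u v : F,
      |dist u p * Φ ψ (Sum.inl (Sum.inl u)) - dist v p * Φ ψ (Sum.inl (Sum.inl v)) -
        labD u v * Φ ψ (Sum.inr (u, v))| ≤ δ := by
    intro ψ hψ u v
    have h1 := htele (fun t => ψ (T t)) (by rw [map_zero]; exact ψ.map_base)
      (fun s t => (hψL ψ s t).trans (mul_le_of_le_one_left (apply_nonneg ν _) hψ))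
      (Sum.inr (u, v))
    have h2 := hid (Φ ψ) u v
    change |∑ l, S.γ l * S.η l (Pi.single (Sum.inr (u, v)) 1) * Φ ψ l| ≤ ε at h1
    rw [h2, abs_mul, abs_of_pos hc] at h1
    exact le_of_mul_le_mul_left (h1.trans hε2) hc
  have hkey : ∀ (ψ : Lip0 X (0 : X)) (u v : F),
      |dist u p * Φ ψ (Sum.inl (Sum.inl u)) - dist v p * Φ ψ (Sum.inl (Sum.inl v)) -
        labD u v * Φ ψ (Sum.inr (u, v))| ≤ δ * ‖ψ‖ := by
    intro ψ u v
    rcases eq_or_ne ψ 0 with rfl | hψ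
    · have h0 : ∀ l, Φ 0 l = 0 := fun l => by
        have := hΦsmul 0 0 l
        rwa [zero_smul, zero_mul] at this
      rw [h0, h0, h0]
      simp
    · have hn : 0 < ‖ψ‖ := norm_pos_iff.2 hψ
      have h1 := hkey1 (‖ψ‖⁻¹ • ψ) (by
        rw [norm_smul, norm_inv, norm_norm, inv_mul_cancel₀ hn.ne']) u v
      rw [hΦsmul, hΦsmul, hΦsmul] at h1
      have h2 : dist u p * (‖ψ‖⁻¹ * Φ ψ (Sum.inl (Sum.inl u))) -
          dist v p * (‖ψ‖⁻¹ * Φ ψ (Sum.inl (Sum.inl v))) -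
          labD u v * (‖ψ‖⁻¹ * Φ ψ (Sum.inr (u, v))) =
          ‖ψ‖⁻¹ * (dist u p * Φ ψ (Sum.inl (Sum.inl u)) - dist v p * Φ ψ (Sum.inl (Sum.inl v)) -
        labD u v * Φ ψ (Sum.inr (u, v))) := by ring
      rw [h2, abs_mul, abs_of_pos (inv_pos.2 hn), inv_mul_le_iff₀ hn] at h1
      linarith
  -- the map `R`
  obtain ⟨R, hR, hRa⟩ := Loc_clm (V := Lip0 X (0 : X)) (M := F) (p := p)
    (fun ψ u => 2 * dist u p * Φ ψ (Sum.inl (Sum.inl u))) (K := 8) (by norm_num)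
    (fun ψ φ u => by simp only [hΦadd]; ring) (fun a ψ u => by simp only [hΦsmul]; ring)
    (fun ψ => by simp only [dist_self, mul_zero, zero_mul]) (fun ψ u v => by
      rcases eq_or_ne u v with rfl | huv
      · simp
      have h1 := hkey ψ u v
      have h2 := hrim ψ (u, v)
      change |Φ ψ (Sum.inr (u, v))| ≤ _ at h2
      have h3 : labD u v = dist u v := by
        unfold labD
        rw [if_neg huv]
      rw [h3] at h1
      have h4 : |dist u v * Φ ψ (Sum.inr (u, v))| ≤ dist u v * (3 * ‖ψ‖) := by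
        rw [abs_mul, abs_of_nonneg dist_nonneg]
        exact mul_le_mul_of_nonneg_left h2 dist_nonneg
      have h5 : δ * ‖ψ‖ ≤ dist u v * ‖ψ‖ :=
        mul_le_mul_of_nonneg_right (hδd u v huv) (norm_nonneg _)
      have h6 := abs_le.1 h1
      have h7 := abs_le.1 h4
      rw [abs_le]
      constructor <;> nlinarith)
  refine (fac_of_almost_pointwise p J R hJ hR hδd ?_).imp fun J' => ?_
  · intro f u
    rw [hRa]
    rcases eq_or_ne u p with rfl | hup
    · rw [dist_self, mul_zero, zero_mul, f.map_base, sub_zero, abs_zero]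
      positivity
    have h1 := (hα _ (hz f f.map_base)).2 (Sum.inl (Sum.inl u))
    have h2 : Φ (J f) (Sum.inl (Sum.inl u)) =
        pair (S.r (Sum.inl (Sum.inl u))) (Q (Sum.inl (Sum.inl u))) (b (labα p f)) := by
      have h3 : (fun t => (J f) (T t)) = fun t => b (labα p f) t - b (labα p f) 0 := by
        funext t
        rw [hJa, hUT]
      rw [hΦ]
      change pair _ _ (fun t => (J f) (T t)) = _
      rw [h3]
      exact pair_sub_const _ (hQt _) (hbs _).continuous _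
    rw [← h2, labα_spoke] at h1
    have hup' : 0 < dist u p := dist_pos.2 hup
    have h3 : 2 * dist u p * Φ (J f) (Sum.inl (Sum.inl u)) - f u =
        2 * dist u p * (Φ (J f) (Sum.inl (Sum.inl u)) - f u / dist u p / 2) := by
      field_simp
    rw [h3, abs_mul, abs_of_pos (by positivity)]
    calc 2 * dist u p * |Φ (J f) (Sum.inl (Sum.inl u)) - f u / dist u p / 2|
        ≤ 2 * dist u p * (ε * ‖labα p f‖) := mul_le_mul_of_nonneg_left h1 (by positivity)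
      _ ≤ 2 * d * (ε * ‖f‖) := by
          refine mul_le_mul ?_ (mul_le_mul_of_nonneg_left (hαn f) hε.le) (by positivity)
            (by positivity)
          linarith [hdd u p]
      _ = 2 * d * ε * ‖f‖ := by ring
      _ ≤ δ / 4 * ‖f‖ := mul_le_mul_of_nonneg_right hε1 (norm_nonneg _)
  · rintro ⟨R', h1, h2, h3⟩
    have h4 : max (6 : ℝ) (2 * 8) = 16 := by norm_num
    rw [h4] at h2 h3
    exact ⟨R', h1, h2, h3⟩

theorem localCondition_infDim {X : Type*} [NormedAddCommGroup X] [NormedSpace ℝ X]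
    (hX : ¬ FiniteDimensional ℝ X) : LocalCondition X := by
  refine ⟨16, fun F hF p => ?_⟩
  have : Finite F := hF
  exact Loc_main hX F p

end Pool.Agent.Lib.MP_65fa9b_an_c
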