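import Pool.Agent.Lib.MP_65fa9b_an_c.Pair

/-!
# Linearity of the functionals
-/

set_option autoImplicit false

open MeasureTheory Set Filter Topology

open scoped ContDiff NNReal

namespace Pool.Agent.Lib.MP_65fa9b_an_c

variable {ι : Type*} [Fintype ι]

theorem IsTest.contDiff {Q : (ι → ℝ) → ℝ} (hQ : IsTest Q) : ContDiff ℝ ∞ Q := hQ.1

theorem IsTest.continuous {Q : (ι → ℝ) → ℝ} (hQ : IsTest Q) : Continuous Q := hQ.1.continuous

theorem IsTest.differentiable {Q : (ι → ℝ) → ℝ} (hQ : IsTest Q) : Differentiable ℝ Q :=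
  hQ.1.differentiable (by simp)

theorem IsTest.integrable {Q : (ι → ℝ) → ℝ} (hQ : IsTest Q) : Integrable Q :=
  hQ.continuous.integrable_of_hasCompactSupport hQ.2

theorem isTest_zero : IsTest (fun _ : ι → ℝ => (0 : ℝ)) := ⟨contDiff_const, HasCompactSupport.zero⟩

theorem IsTest.add {Q Q' : (ι → ℝ) → ℝ} (hQ : IsTest Q) (hQ' : IsTest Q') :
    IsTest (fun x => Q x + Q' x) := ⟨hQ.1.add hQ'.1, hQ.2.add hQ'.2⟩

theorem IsTest.mul_right {Q f : (ι → ℝ) → ℝ} (hQ : IsTest Q) (hf : ContDiff ℝ ∞ f) :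
    IsTest (fun x => Q x * f x) := ⟨hQ.1.mul hf, hQ.2.mul_right⟩

theorem IsTest.const_mul {Q : (ι → ℝ) → ℝ} (hQ : IsTest Q) (c : ℝ) :
    IsTest (fun x => c * Q x) := ⟨contDiff_const.mul hQ.1, hQ.2.mul_left⟩

theorem IsTest.continuous_fderiv_apply {Q : (ι → ℝ) → ℝ} (hQ : IsTest Q) (v : ι → ℝ) :
    Continuous fun x => fderiv ℝ Q x v :=
  (hQ.1.continuous_fderiv (by simp)).clm_apply continuous_const

theorem IsTest.fderiv_apply {Q : (ι → ℝ) → ℝ} (hQ : IsTest Q) (v : ι → ℝ) :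
    IsTest (fun x => fderiv ℝ Q x v) := by
  refine ⟨?_, ?_⟩
  · exact (hQ.1.fderiv_right (m := ∞) (by simp)).clm_apply contDiff_const
  · exact hQ.2.fderiv_apply ℝ v

theorem integrable_pair {Q ψ : (ι → ℝ) → ℝ} (v : ι → ℝ) (hQ : IsTest Q) (hψ : Continuous ψ) :
    Integrable fun x => fderiv ℝ Q x v * ψ x :=
  ((hQ.continuous_fderiv_apply v).mul hψ).integrable_of_hasCompactSupport
    ((hQ.fderiv_apply v).2.mul_right)

theorem pair_add_Q (v : ι → ℝ) {Q Q' ψ : (ι → ℝ) → ℝ} (hQ : IsTest Q) (hQ' : IsTest Q')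
    (hψ : Continuous ψ) : pair v (fun x => Q x + Q' x) ψ = pair v Q ψ + pair v Q' ψ := by
  unfold pair
  rw [← neg_add, ← integral_add (integrable_pair v hQ hψ) (integrable_pair v hQ' hψ)]
  congr 1
  refine integral_congr_ae (Filter.Eventually.of_forall fun x => ?_)
  show fderiv ℝ (fun x => Q x + Q' x) x v * ψ x = _
  rw [fderiv_fun_add (hQ.differentiable x) (hQ'.differentiable x), ContinuousLinearMap.add_apply]
  ring

theorem pair_const_mul_Q (v : ι → ℝ) {Q ψ : (ι → ℝ) → ℝ} (hQ : IsTest Q) (c : ℝ) :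
    pair v (fun x => c * Q x) ψ = c * pair v Q ψ := by
  unfold pair
  rw [mul_neg, ← integral_const_mul]
  congr 1
  refine integral_congr_ae (Filter.Eventually.of_forall fun x => ?_)
  show fderiv ℝ (fun x => c * Q x) x v * ψ x = _
  rw [fderiv_const_mul (hQ.differentiable x), ContinuousLinearMap.smul_apply, smul_eq_mul]
  ring

theorem pair_add_v (v w : ι → ℝ) {Q ψ : (ι → ℝ) → ℝ} (hQ : IsTest Q) (hψ : Continuous ψ) :
    pair (v + w) Q ψ = pair v Q ψ + pair w Q ψ := by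
  unfold pair
  rw [← neg_add, ← integral_add (integrable_pair v hQ hψ) (integrable_pair w hQ hψ)]
  congr 1
  refine integral_congr_ae (Filter.Eventually.of_forall fun x => ?_)
  show fderiv ℝ Q x (v + w) * ψ x = _
  rw [map_add]
  ring

theorem pair_smul_v (v : ι → ℝ) (c : ℝ) (Q ψ : (ι → ℝ) → ℝ) :
    pair (c • v) Q ψ = c * pair v Q ψ := by
  unfold pair
  rw [mul_neg, ← integral_const_mul]
  congr 1
  refine integral_congr_ae (Filter.Eventually.of_forall fun x => ?_)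
  show fderiv ℝ Q x (c • v) * ψ x = _
  rw [map_smul, smul_eq_mul]
  ring

theorem seminorm_le (ν : Seminorm ℝ (ι → ℝ)) : ∃ B : ℝ, 0 ≤ B ∧ ∀ x, ν x ≤ B * ‖x‖ := by
  classical
  refine ⟨∑ i, ν (Pi.single i 1), Finset.sum_nonneg fun i _ => apply_nonneg ν _, fun x => ?_⟩
  calc ν x = ν (∑ i, Pi.single i (x i)) := by rw [Finset.univ_sum_single]
    _ ≤ ∑ i, ν (Pi.single i (x i)) :=
        Finset.le_sum_of_subadditive ν (map_zero ν).le (map_add_le_add ν) _ _
    _ ≤ ∑ i, ν (Pi.single i 1) * ‖x‖ := by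
        refine Finset.sum_le_sum fun i _ => ?_
        have e : (Pi.single i (x i) : ι → ℝ) = x i • Pi.single i 1 := by
          rw [← Pi.single_smul, smul_eq_mul, mul_one]
        rw [e, map_smul_eq_mul, mul_comm]
        exact mul_le_mul_of_nonneg_left (norm_le_pi_norm x i) (apply_nonneg ν _)
    _ = _ := by rw [Finset.sum_mul]

theorem lipschitz_of_seminorm (ν : Seminorm ℝ (ι → ℝ)) :
    ∃ K' : ℝ≥0, ∀ ψ : (ι → ℝ) → ℝ, (∀ x y, |ψ x - ψ y| ≤ ν (x - y)) → LipschitzWith K' ψ := by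
  obtain ⟨B, hB, h⟩ := seminorm_le ν
  refine ⟨⟨B, hB⟩, fun ψ hψ => LipschitzWith.of_dist_le_mul fun x y => ?_⟩
  rw [Real.dist_eq, dist_eq_norm]
  exact (hψ x y).trans (h _)

end Pool.Agent.Lib.MP_65fa9b_an_c
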