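import Pool.Agent.Lib.MP_65fa9b_an_c.Pair2

/-!
# Primitives of periodic functions
-/

set_option autoImplicit false

open MeasureTheory Set Filter Topology

open scoped ContDiff NNReal

namespace Pool.Agent.Lib.MP_65fa9b_an_c

/-- The primitive. -/
noncomputable def prim (e : ℝ → ℝ) (t : ℝ) : ℝ := ∫ u in (0 : ℝ)..t, e u

theorem prim_hasDerivAt {e : ℝ → ℝ} (he : Continuous e) (t : ℝ) : HasDerivAt (prim e) (e t) t :=
  intervalIntegral.integral_hasDerivAt_right (he.intervalIntegrable _ _)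
    he.aestronglyMeasurable.stronglyMeasurableAtFilter he.continuousAt

theorem prim_continuous {e : ℝ → ℝ} (he : Continuous e) : Continuous (prim e) :=
  continuous_iff_continuousAt.mpr fun t => (prim_hasDerivAt he t).continuousAt

theorem prim_contDiff {e : ℝ → ℝ} (he : ContDiff ℝ ∞ e) : ContDiff ℝ ∞ (prim e) := by
  rw [contDiff_infty_iff_deriv]
  refine ⟨fun t => (prim_hasDerivAt he.continuous t).differentiableAt, ?_⟩
  have : deriv (prim e) = e := funext fun t => (prim_hasDerivAt he.continuous t).deriv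
  rw [this]
  exact he

theorem prim_periodic {e : ℝ → ℝ} (he : Continuous e) (hper : Function.Periodic e 1)
    (hint : ∫ t in (0 : ℝ)..1, e t = 0) : Function.Periodic (prim e) 1 := by
  intro t
  unfold prim
  rw [← intervalIntegral.integral_add_adjacent_intervals (he.intervalIntegrable 0 t)
    (he.intervalIntegrable t (t + 1)), hper.intervalIntegral_add_eq t 0, zero_add, hint, add_zero]

theorem periodic_bdd {e : ℝ → ℝ} (he : Continuous e) (hper : Function.Periodic e 1) :
    ∃ A : ℝ, 0 ≤ A ∧ ∀ t, |e t| ≤ A := by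
  obtain ⟨A, hA⟩ := (isCompact_Icc (a := (0 : ℝ)) (b := 1)).exists_bound_of_continuousOn
    he.continuousOn
  refine ⟨max A 0, le_max_right _ _, fun t => ?_⟩
  have h := hA (Int.fract t) ⟨Int.fract_nonneg t, (Int.fract_lt_one t).le⟩
  have e1 : e (Int.fract t) = e t := by
    have := hper.sub_zsmul_eq (x := t) ⌊t⌋
    rw [zsmul_one] at this
    exact this
  rw [e1, Real.norm_eq_abs] at h
  exact h.trans (le_max_left _ _)

theorem prim_bdd {e : ℝ → ℝ} (he : Continuous e) (hper : Function.Periodic e 1)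
    (hint : ∫ t in (0 : ℝ)..1, e t = 0) : ∃ A : ℝ, 0 ≤ A ∧ ∀ t, |prim e t| ≤ A :=
  periodic_bdd (prim_continuous he) (prim_periodic he hper hint)

variable {ι : Type*} [Fintype ι]

theorem scale_contDiff {e : ℝ → ℝ} (he : ContDiff ℝ ∞ e) (η : (ι → ℝ) →L[ℝ] ℝ) (s : ℝ) :
    ContDiff ℝ ∞ fun x => e (η x / s) :=
  he.comp (η.contDiff.div_const s)

theorem scale_hasFDerivAt {e : ℝ → ℝ} {d : ℝ} (η : (ι → ℝ) →L[ℝ] ℝ) {s : ℝ} (x : ι → ℝ)
    (he : HasDerivAt e d (η x / s)) :
    HasFDerivAt (fun x => e (η x / s)) ((d / s) • η) x := by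
  have h1 : HasFDerivAt (fun x => η x / s) (s⁻¹ • η) x := by
    have := η.hasFDerivAt (x := x)
    simpa [div_eq_inv_mul] using this.const_mul s⁻¹
  have h2 := he.comp_hasFDerivAt x h1
  rw [smul_smul, ← div_eq_mul_inv] at h2
  exact h2

/-- The fine sawtooth. -/
theorem saw_hasFDerivAt {e : ℝ → ℝ} (he : Continuous e) (η : (ι → ℝ) →L[ℝ] ℝ) {s : ℝ} (hs : s ≠ 0)
    (x : ι → ℝ) : HasFDerivAt (fun x => s * prim e (η x / s)) (e (η x / s) • η) x := by
  have h := (scale_hasFDerivAt η x (prim_hasDerivAt he (η x / s))).const_mul s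
  have e1 : s • ((e (η x / s) / s) • η) = e (η x / s) • η := by
    rw [smul_smul]
    congr 1
    field_simp
  rw [e1] at h
  exact h

end Pool.Agent.Lib.MP_65fa9b_an_c
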