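import Pool.Agent.Lib.MP_65fa9b_an_c.Defs

/-!
# Existence of profiles

Proof. `S t = (sin (π t))²` is smooth, 1-periodic. Put `σ (a, b) t = Real.smoothTransition
((S t - S a) / (S b - S a))` (smooth, periodic, values in [0,1], `= 0` iff `S t ≤ S a`, `= 1` if
`S t ≥ S b`), and `a_0 = γ/4 < a_1 = γ/3 < a_2 = γ/2 < a_3 = 2γ/3 < 1/2`.
* `ω = 1 - σ (a_0, a_1)`: `ω = 1` for `|t| ≤ a_0` mod 1, so `∫_0^1 ω ≥ 2 a_0 = γ/2`.
  `k = -γ + (γ / ∫ω) ω`: mean zero, `≥ -γ`, `≤ -γ + 2 ≤ 2`.
* `χ = σ (a_1, a_2)`: `χ ≠ 0` implies `S > S a_1`, so `ω = 0` and `k = -γ`.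
* `φ = σ (a_2, a_3)`, `g = φ / ∫φ`: `∫_0^1 φ ≥ 1 - 2 a_3 = 1 - 4γ/3 ≥ 1/(1+2γ)` for `γ ≤ 1/4`;
  `g ≠ 0` implies `S > S a_2`, an open condition, which implies `χ = 1`.
-/

set_option autoImplicit false

open MeasureTheory Set Filter Topology

open scoped ContDiff NNReal

namespace Pool.Agent.Lib.MP_65fa9b_an_c

/-- `(sin (π t))²` -/
noncomputable def PrS (t : ℝ) : ℝ := Real.sin (Real.pi * t) ^ 2

lemma PrS_per : Function.Periodic PrS 1 := by
  intro t
  unfold PrS
  rw [mul_add, mul_one, Real.sin_add_pi, neg_sq]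

lemma PrS_smooth : ContDiff ℝ ∞ PrS := by
  unfold PrS
  exact (Real.contDiff_sin.comp (contDiff_const.mul contDiff_id)).pow 2

lemma PrS_sym (t : ℝ) : PrS (1 - t) = PrS t := by
  unfold PrS
  rw [mul_sub, mul_one, Real.sin_pi_sub]

lemma PrS_mono {s t : ℝ} (h0 : 0 ≤ s) (h1 : s ≤ t) (h2 : t ≤ 1 / 2) : PrS s ≤ PrS t := by
  unfold PrS
  have hp := Real.pi_pos
  apply pow_le_pow_left₀
  · apply Real.sin_nonneg_of_nonneg_of_le_pi (by positivity)
    nlinarith
  · apply Real.sin_le_sin_of_le_of_le_pi_div_two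
    · nlinarith
    · nlinarith
    · nlinarith

lemma PrS_lt {s t : ℝ} (h0 : 0 ≤ s) (h1 : s < t) (h2 : t ≤ 1 / 2) : PrS s < PrS t := by
  unfold PrS
  have hp := Real.pi_pos
  apply pow_lt_pow_left₀ _ _ two_ne_zero
  · apply Real.sin_lt_sin_of_lt_of_le_pi_div_two
    · nlinarith
    · nlinarith
    · nlinarith
  · apply Real.sin_nonneg_of_nonneg_of_le_pi (by positivity)
    nlinarith

/-- the transition between `S a` and `S b` -/
noncomputable def PrT (a b t : ℝ) : ℝ := Real.smoothTransition ((PrS t - PrS a) / (PrS b - PrS a))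

lemma PrT_per (a b : ℝ) : Function.Periodic (PrT a b) 1 := by
  intro t
  unfold PrT
  rw [PrS_per t]

lemma PrT_smooth (a b : ℝ) : ContDiff ℝ ∞ (PrT a b) := by
  unfold PrT
  exact Real.smoothTransition.contDiff.comp ((PrS_smooth.sub contDiff_const).div_const _)

lemma PrT_nonneg (a b t : ℝ) : 0 ≤ PrT a b t := Real.smoothTransition.nonneg _

lemma PrT_le (a b t : ℝ) : PrT a b t ≤ 1 := Real.smoothTransition.le_one _

lemma PrT_zero {a b t : ℝ} (ha : 0 ≤ a) (hab : a < b) (hb : b ≤ 1 / 2) (h : PrS t ≤ PrS a) :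
    PrT a b t = 0 := by
  unfold PrT
  apply Real.smoothTransition.zero_of_nonpos
  exact div_nonpos_of_nonpos_of_nonneg (by linarith) (by linarith [PrS_lt ha hab hb])

lemma PrT_one {a b t : ℝ} (ha : 0 ≤ a) (hab : a < b) (hb : b ≤ 1 / 2) (h : PrS b ≤ PrS t) :
    PrT a b t = 1 := by
  unfold PrT
  apply Real.smoothTransition.one_of_one_le
  rw [one_le_div (by linarith [PrS_lt ha hab hb])]
  linarith

lemma PrT_ne {a b t : ℝ} (ha : 0 ≤ a) (hab : a < b) (hb : b ≤ 1 / 2) (h : PrT a b t ≠ 0) :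
    PrS a < PrS t := by
  by_contra hc
  exact h (PrT_zero ha hab hb (not_lt.1 hc))

/-- lower bound for the integral of a function in `[0, 1]` which is `1` near the integers -/
lemma Pr_int_out {f : ℝ → ℝ} (hf : Continuous f) (h0 : ∀ t, 0 ≤ f t) {a : ℝ} (ha : 0 ≤ a) (ha2 : a ≤ 1 / 2)
    (h1 : ∀ t, 0 ≤ t → t ≤ a → f t = 1) (h2 : ∀ t, 1 - a ≤ t → t ≤ 1 → f t = 1) :
    2 * a ≤ ∫ t in (0 : ℝ)..1, f t := by
  have hi : ∀ x y : ℝ, IntervalIntegrable f volume x y := fun x y => hf.intervalIntegrable x y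
  rw [← intervalIntegral.integral_add_adjacent_intervals (hi 0 a) (hi a 1),
    ← intervalIntegral.integral_add_adjacent_intervals (hi a (1 - a)) (hi (1 - a) 1)]
  have e1 : ∫ t in (0 : ℝ)..a, f t = a := by
    have : ∫ t in (0 : ℝ)..a, f t = ∫ t in (0 : ℝ)..a, (1 : ℝ) := by
      apply intervalIntegral.integral_congr
      intro t ht
      rw [uIcc_of_le ha] at ht
      exact h1 t ht.1 ht.2
    rw [this]
    simp
  have e2 : ∫ t in (1 - a)..1, f t = a := by
    have : ∫ t in (1 - a)..1, f t = ∫ t in (1 - a)..1, (1 : ℝ) := by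
      apply intervalIntegral.integral_congr
      intro t ht
      rw [uIcc_of_le (by linarith)] at ht
      exact h2 t ht.1 ht.2
    rw [this]
    simp
  have e3 : 0 ≤ ∫ t in a..(1 - a), f t :=
    intervalIntegral.integral_nonneg (by linarith) (fun t _ => h0 t)
  linarith

/-- lower bound for the integral of a function in `[0, 1]` which is `1` away from the integers -/
lemma Pr_int_in {f : ℝ → ℝ} (hf : Continuous f) (h0 : ∀ t, 0 ≤ f t) {a : ℝ} (ha : 0 ≤ a) (ha2 : a ≤ 1 / 2)
    (h1 : ∀ t, a ≤ t → t ≤ 1 - a → f t = 1) :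
    1 - 2 * a ≤ ∫ t in (0 : ℝ)..1, f t := by
  have hi : ∀ x y : ℝ, IntervalIntegrable f volume x y := fun x y => hf.intervalIntegrable x y
  rw [← intervalIntegral.integral_add_adjacent_intervals (hi 0 a) (hi a 1),
    ← intervalIntegral.integral_add_adjacent_intervals (hi a (1 - a)) (hi (1 - a) 1)]
  have e1 : 0 ≤ ∫ t in (0 : ℝ)..a, f t := intervalIntegral.integral_nonneg ha (fun t _ => h0 t)
  have e2 : 0 ≤ ∫ t in (1 - a)..1, f t :=
    intervalIntegral.integral_nonneg (by linarith) (fun t _ => h0 t)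
  have e3 : ∫ t in a..(1 - a), f t = 1 - 2 * a := by
    have : ∫ t in a..(1 - a), f t = ∫ t in a..(1 - a), (1 : ℝ) := by
      apply intervalIntegral.integral_congr
      intro t ht
      rw [uIcc_of_le (by linarith)] at ht
      exact h1 t ht.1 ht.2
    rw [this]
    simp
    ring
  linarith

theorem exists_profile {γ : ℝ} (h0 : 0 < γ) (h1 : γ ≤ 1 / 4) : Nonempty (Profile γ) := by
  have hw : Continuous (fun t => 1 - PrT (γ / 4) (γ / 3) t) :=
    continuous_const.sub (PrT_smooth _ _).continuous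
  have hφ : Continuous (PrT (γ / 2) (2 * γ / 3)) := (PrT_smooth _ _).continuous
  set Iω : ℝ := ∫ t in (0 : ℝ)..1, (1 - PrT (γ / 4) (γ / 3) t) with hIω
  set Iφ : ℝ := ∫ t in (0 : ℝ)..1, PrT (γ / 2) (2 * γ / 3) t with hIφ
  have hIω1 : γ / 2 ≤ Iω := by
    have h := Pr_int_out hw (fun t => by linarith [PrT_le (γ / 4) (γ / 3) t]) (a := γ / 4)
      (by positivity) (by linarith)
      (fun t ht1 ht2 => by
        rw [PrT_zero (by positivity) (by linarith) (by linarith) (PrS_mono ht1 ht2 (by linarith)), sub_zero])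
      (fun t ht1 ht2 => by
        rw [PrT_zero (by positivity) (by linarith) (by linarith), sub_zero]
        rw [← PrS_sym t]
        exact PrS_mono (by linarith) (by linarith) (by linarith))
    linarith
  have hIφ1 : 1 - 4 * γ / 3 ≤ Iφ := by
    have h := Pr_int_in hφ (fun t => PrT_nonneg _ _ t) (a := 2 * γ / 3)
      (by positivity) (by linarith)
      (fun t ht1 ht2 => by
        apply PrT_one (by positivity) (by linarith) (by linarith)
        rcases le_total t (1 / 2) with h | h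
        · exact PrS_mono (by positivity) ht1 h
        · rw [← PrS_sym t]
          exact PrS_mono (by positivity) (by linarith) (by linarith))
    linarith
  have hIω0 : 0 < Iω := by linarith
  have hIφ0 : 0 < Iφ := by linarith
  refine ⟨{
    k := fun t => -γ + (γ / Iω) * (1 - PrT (γ / 4) (γ / 3) t)
    χ := PrT (γ / 3) (γ / 2)
    g := fun t => PrT (γ / 2) (2 * γ / 3) t / Iφ
    k_smooth := contDiff_const.add (contDiff_const.mul (contDiff_const.sub (PrT_smooth _ _)))
    χ_smooth := PrT_smooth _ _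
    g_smooth := (PrT_smooth _ _).div_const _
    k_per := fun t => by simp only [PrT_per _ _ t]
    χ_per := PrT_per _ _
    g_per := fun t => by simp only [PrT_per _ _ t]
    k_ge := fun t => ?_
    k_le := fun t => ?_
    k_int := ?_
    χ_nonneg := fun t => PrT_nonneg _ _ t
    χ_le := fun t => PrT_le _ _ t
    χ_k := fun t ht => ?_
    g_nonneg := fun t => div_nonneg (PrT_nonneg _ _ t) hIφ0.le
    g_le := fun t => ?_
    g_int := ?_
    g_χ := fun t ht => ?_ }⟩
  · have h2 : 0 ≤ (γ / Iω) * (1 - PrT (γ / 4) (γ / 3) t) :=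
      mul_nonneg (by positivity) (by linarith [PrT_le (γ / 4) (γ / 3) t])
    linarith
  · have h2 : (γ / Iω) * (1 - PrT (γ / 4) (γ / 3) t) ≤ 2 * 1 := by
      apply mul_le_mul _ (by linarith [PrT_nonneg (γ / 4) (γ / 3) t])
        (by linarith [PrT_le (γ / 4) (γ / 3) t]) (by norm_num)
      rw [div_le_iff₀ hIω0]
      linarith
    linarith
  · have i1 : IntervalIntegrable (fun _ : ℝ => -γ) volume 0 1 := continuous_const.intervalIntegrable _ _
    have i2 : IntervalIntegrable (fun t => γ / Iω * (1 - PrT (γ / 4) (γ / 3) t)) volume 0 1 :=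
      (continuous_const.mul hw).intervalIntegrable _ _
    have e : ∫ t in (0 : ℝ)..1, (-γ + γ / Iω * (1 - PrT (γ / 4) (γ / 3) t)) =
        (∫ _t in (0 : ℝ)..1, -γ) + ∫ t in (0 : ℝ)..1, γ / Iω * (1 - PrT (γ / 4) (γ / 3) t) :=
      intervalIntegral.integral_add i1 i2
    rw [e, intervalIntegral.integral_const_mul, ← hIω, intervalIntegral.integral_const,
      div_mul_cancel₀ _ hIω0.ne']
    simp
  · have h2 := PrT_ne (by positivity) (by linarith) (by linarith) ht
    rw [PrT_one (by positivity) (by linarith) (by linarith) h2.le]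
    ring
  · rw [div_le_iff₀ hIφ0]
    have h2 := PrT_le (γ / 2) (2 * γ / 3) t
    have h3 : 1 ≤ (1 + 2 * γ) * Iφ := by
      calc (1 : ℝ) ≤ (1 + 2 * γ) * (1 - 4 * γ / 3) := by nlinarith
        _ ≤ (1 + 2 * γ) * Iφ := mul_le_mul_of_nonneg_left hIφ1 (by positivity)
    linarith
  · rw [intervalIntegral.integral_div, ← hIφ]
    exact div_self hIφ0.ne'
  · have h2 : PrT (γ / 2) (2 * γ / 3) t ≠ 0 := fun h => ht (by rw [h, zero_div])
    have h3 := PrT_ne (by positivity) (by linarith) (by linarith) h2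
    have h4 : ∀ᶠ s in 𝓝 t, PrS (γ / 2) < PrS s :=
      PrS_smooth.continuous.continuousAt.eventually (lt_mem_nhds h3)
    filter_upwards [h4] with s hs
    exact PrT_one (by positivity) (by linarith) (by linarith) hs.le

end Pool.Agent.Lib.MP_65fa9b_an_c
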