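import Pool.Agent.Lib.MP_65fa9b_an_c.Prof
import Pool.Agent.Lib.MP_65fa9b_an_c.Avg
import Pool.Agent.Lib.MP_65fa9b_an_c.Prim

/-!
# One step of the construction
-/

set_option autoImplicit false

open MeasureTheory Set Filter Topology

open scoped ContDiff NNReal

namespace Pool.Agent.Lib.MP_65fa9b_an_c

section

variable {ι : Type*} [Fintype ι]

theorem IsTest.exists_lip {Q : (ι → ℝ) → ℝ} (hQ : IsTest Q) : ∃ K : ℝ≥0, LipschitzWith K Q :=
  ContDiff.lipschitzWith_of_hasCompactSupport hQ.2 hQ.1 (by simp)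

theorem IsTest.exists_supp {Q : (ι → ℝ) → ℝ} (hQ : IsTest Q) :
    ∃ R : ℝ, 0 ≤ R ∧ ∀ x, Q x ≠ 0 → ‖x‖ ≤ R := by
  obtain ⟨R, hR⟩ := hQ.2.isBounded.subset_closedBall (0 : ι → ℝ)
  refine ⟨max R 0, le_max_right _ _, fun x hx => ?_⟩
  have h1 := hR (subset_tsupport Q hx)
  rw [mem_closedBall_zero_iff] at h1
  exact h1.trans (le_max_left _ _)

theorem IsTest.exists_bdd {Q : (ι → ℝ) → ℝ} (hQ : IsTest Q) : ∃ M : ℝ, 0 ≤ M ∧ ∀ x, |Q x| ≤ M := by
  obtain ⟨M, hM⟩ := hQ.2.exists_bound_of_continuous hQ.continuous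
  exact ⟨max M 0, le_max_right _ _, fun x => (hM x).trans (le_max_left _ _)⟩

theorem avg_test {P : (ι → ℝ) → ℝ} (hP : IsTest P) {e : ℝ → ℝ} (he : Continuous e)
    (hper : Function.Periodic e 1) (hint : ∫ t in (0 : ℝ)..1, e t = 0) (η : (ι → ℝ) →L[ℝ] ℝ)
    (r : ι → ℝ) (hηr : η r = 1) {ε : ℝ} (hε : 0 < ε) :
    ∀ᶠ s in 𝓝[>] (0 : ℝ), |∫ x, P x * e (η x / s)| ≤ ε := by
  obtain ⟨K, hK⟩ := hP.exists_lip
  obtain ⟨R, _, hR⟩ := hP.exists_supp
  filter_upwards [averaging he hper hint η r hηr K R hε] with s hs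
  exact hs P hK hR

theorem null_test {P : (ι → ℝ) → ℝ} (hP : IsTest P) {e : ℝ → ℝ} (he : ContDiff ℝ ∞ e)
    (hper : Function.Periodic e 1) (hint : ∫ t in (0 : ℝ)..1, e t = 0) (η : (ι → ℝ) →L[ℝ] ℝ)
    (r : ι → ℝ) (hηr : η r = 1) (w : ι → ℝ) (hw : η w = 0) (K : ℝ≥0) {ε : ℝ} (hε : 0 < ε) :
    ∀ᶠ s in 𝓝[>] (0 : ℝ), ∀ ψ : (ι → ℝ) → ℝ, ψ 0 = 0 → LipschitzWith K ψ →
      |pair w (fun x => P x * e (η x / s)) ψ| ≤ ε := by
  have hG := hP.fderiv_apply w
  obtain ⟨KG, hKG⟩ := hG.exists_lip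
  obtain ⟨R, hR0, hR⟩ := hG.exists_supp
  obtain ⟨M, hM0, hM⟩ := hG.exists_bdd
  filter_upwards [averaging he.continuous hper hint η r hηr (KG * (K * ⟨R, hR0⟩) + ⟨M, hM0⟩ * K) R hε,
    self_mem_nhdsWithin] with s hs hs0 ψ hψ0 hψ
  have hs0' : (0 : ℝ) < s := hs0
  have hf : LipschitzWith (KG * (K * ⟨R, hR0⟩) + ⟨M, hM0⟩ * K)
      (fun x => fderiv ℝ P x w * ψ x) := by
    have hψb : ∀ x, ‖x‖ ≤ R → |ψ x| ≤ K * R := by
      intro x hx
      have h1 := hψ.dist_le_mul x 0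
      rw [Real.dist_eq, hψ0, sub_zero, dist_zero_right] at h1
      exact h1.trans (mul_le_mul_of_nonneg_left hx K.2)
    have key : ∀ x y, ‖x‖ ≤ R → |fderiv ℝ P x w * ψ x - fderiv ℝ P y w * ψ y| ≤
        (KG * (K * R) + M * K) * ‖x - y‖ := by
      intro x y hx
      have h1 := hψ.dist_le_mul x y
      have h2 := hKG.dist_le_mul x y
      rw [Real.dist_eq, dist_eq_norm] at h1 h2
      have h3 := hψb x hx
      have h4 := hM y
      have e1 : fderiv ℝ P x w * ψ x - fderiv ℝ P y w * ψ y =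
          (fderiv ℝ P x w - fderiv ℝ P y w) * ψ x + fderiv ℝ P y w * (ψ x - ψ y) := by ring
      rw [e1]
      calc _ ≤ |(fderiv ℝ P x w - fderiv ℝ P y w) * ψ x| + |fderiv ℝ P y w * (ψ x - ψ y)| :=
            abs_add_le _ _
        _ ≤ (KG * ‖x - y‖) * (K * R) + M * (K * ‖x - y‖) := by
            rw [abs_mul, abs_mul]
            exact add_le_add (mul_le_mul h2 h3 (abs_nonneg _) (by positivity))
              (mul_le_mul h4 h1 (abs_nonneg _) hM0)
        _ = _ := by ring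
    refine LipschitzWith.of_dist_le_mul fun x y => ?_
    rw [Real.dist_eq, dist_eq_norm]
    push_cast
    by_cases hx : ‖x‖ ≤ R
    · exact key x y hx
    · by_cases hy : ‖y‖ ≤ R
      · rw [abs_sub_comm, norm_sub_rev]
        exact key y x hy
      · have h1 : fderiv ℝ P x w = 0 := by
          by_contra h
          exact hx (hR x h)
        have h2 : fderiv ℝ P y w = 0 := by
          by_contra h
          exact hy (hR y h)
        rw [h1, h2, zero_mul, zero_mul, sub_zero, abs_zero]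
        positivity
  have h1 := hs _ hf (fun x hx => hR x fun h => hx (by simp [h]))
  unfold pair
  rw [abs_neg]
  have e2 : ∀ x, fderiv ℝ (fun x => P x * e (η x / s)) x w * ψ x =
      fderiv ℝ P x w * ψ x * e (η x / s) := by
    intro x
    have h2 := (hP.differentiable x).hasFDerivAt.mul
      (scale_hasFDerivAt (s := s) η x ((he.differentiable (by simp) (η x / s)).hasDerivAt))
    have h3 : fderiv ℝ (fun x => P x * e (η x / s)) x = _ := h2.fderiv
    rw [h3]
    simp only [ContinuousLinearMap.add_apply, ContinuousLinearMap.smul_apply, hw, smul_eq_mul]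
    ring
  simp only [e2]
  exact h1

end

section

variable {ι L : Type*} [Fintype ι] [DecidableEq ι] [Fintype L] [DecidableEq L]

theorem Sys.D_cons (S : Sys ι L) (l : L) (w : List L) (α : L → ℝ) :
    S.D (l :: w) α = S.D w α - (S.γ l * α l) • S.η l := by
  unfold Sys.D
  rw [List.map_cons, List.sum_cons, neg_add]
  abel

theorem Sys.D_apply_le (S : Sys ι L) (w : List L) (r : ι → ℝ) :
    ∃ B : ℝ, 0 ≤ B ∧ ∀ α : L → ℝ, |S.D w α r| ≤ B * ‖α‖ := by
  induction w with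
  | nil => exact ⟨0, le_rfl, fun α => by simp [Sys.D]⟩
  | cons l w ih =>
    obtain ⟨B, hB, h⟩ := ih
    refine ⟨B + S.γ l * |S.η l r|, add_nonneg hB (mul_nonneg (S.γ_pos l).le (abs_nonneg _)),
      fun α => ?_⟩
    rw [S.D_cons, ContinuousLinearMap.sub_apply, ContinuousLinearMap.smul_apply, smul_eq_mul]
    have h1 : |α l| ≤ ‖α‖ := norm_le_pi_norm α l
    calc |S.D w α r - S.γ l * α l * S.η l r| ≤ |S.D w α r| + |S.γ l * α l * S.η l r| := abs_sub _ _
      _ ≤ B * ‖α‖ + S.γ l * ‖α‖ * |S.η l r| := by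
          refine add_le_add (h α) ?_
          rw [abs_mul, abs_mul, abs_of_pos (S.γ_pos l)]
          exact mul_le_mul_of_nonneg_right (mul_le_mul_of_nonneg_left h1 (S.γ_pos l).le)
            (abs_nonneg _)
      _ = _ := by ring

variable {S : Sys ι L} {ν : Seminorm ℝ (ι → ℝ)} {w : List L} {ε : ℝ} (st : State S ν w ε) (l : L)
  (pr : Profile (S.γ l)) (s : ℝ)

/-- The new density. -/
noncomputable def stepP (x : ι → ℝ) : ℝ := st.P x * pr.g (S.η l x / s)

/-- The new cutoff. -/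
noncomputable def stepC (x : ι → ℝ) : ℝ := st.C x * pr.χ (S.η l x / s)

/-- The new part of the map. -/
noncomputable def stepφ (x : ι → ℝ) : ℝ := st.C x * (s * prim pr.k (S.η l x / s))

/-- The new map. -/
noncomputable def stepb : (L → ℝ) →ₗ[ℝ] ((ι → ℝ) → ℝ) :=
  st.b + (LinearMap.proj l : (L → ℝ) →ₗ[ℝ] ℝ).smulRight (stepφ st l pr s)

/-- The new functional. -/
noncomputable def stepN (x : ι → ℝ) : ℝ := st.P x * ((1 - pr.g (S.η l x / s)) / (2 * S.γ l))

/-- The new functionals. -/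
noncomputable def stepQ (l' : L) (x : ι → ℝ) : ℝ :=
  st.Q l' x + (if l' = l then 1 else 0) * stepN st l pr s x

theorem stepP_test : IsTest (stepP st l pr s) :=
  st.P_test.mul_right (scale_contDiff pr.g_smooth (S.η l) s)

theorem stepN_test : IsTest (stepN st l pr s) :=
  st.P_test.mul_right (((contDiff_const.sub (scale_contDiff pr.g_smooth (S.η l) s)).div_const _))

theorem stepQ_test (l' : L) : IsTest (stepQ st l pr s l') :=
  (st.Q_test l').add ((stepN_test st l pr s).const_mul _)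

theorem stepP_nonneg (x : ι → ℝ) : 0 ≤ stepP st l pr s x :=
  mul_nonneg (st.P_nonneg x) (pr.g_nonneg _)

theorem stepC_smooth : ContDiff ℝ ∞ (stepC st l pr s) :=
  st.C_smooth.mul (scale_contDiff pr.χ_smooth (S.η l) s)

theorem stepC_nonneg (x : ι → ℝ) : 0 ≤ stepC st l pr s x :=
  mul_nonneg (st.C_nonneg x) (pr.χ_nonneg _)

theorem stepC_le (x : ι → ℝ) : stepC st l pr s x ≤ st.C x :=
  mul_le_of_le_one_right (st.C_nonneg x) (pr.χ_le _)

theorem stepC_bdd : ∃ B, ∀ x, ‖fderiv ℝ (stepC st l pr s) x‖ ≤ B := by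
  obtain ⟨B, hB⟩ := st.C_bdd
  have hd : Function.Periodic (deriv pr.χ) 1 := by
    intro t
    have h1 : (fun t => pr.χ (t + 1)) = pr.χ := funext fun t => pr.χ_per t
    have h2 := deriv_comp_add_const pr.χ 1 t
    rw [h1] at h2
    exact h2.symm
  obtain ⟨A, hA0, hA⟩ := periodic_bdd (pr.χ_smooth.continuous_deriv (by simp)) hd
  refine ⟨A / |s| * ‖S.η l‖ + B, fun x => ?_⟩
  have h2 := (st.C_smooth.differentiable (by simp) x).hasFDerivAt.mul
    (scale_hasFDerivAt (s := s) (S.η l) x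
      ((pr.χ_smooth.differentiable (by simp) (S.η l x / s)).hasDerivAt))
  have h3 : fderiv ℝ (stepC st l pr s) x = _ := h2.fderiv
  rw [h3]
  have hC : |st.C x| ≤ 1 := by
    rw [abs_of_nonneg (st.C_nonneg x)]
    exact st.C_le x
  have hχ : |pr.χ (S.η l x / s)| ≤ 1 := by
    rw [abs_of_nonneg (pr.χ_nonneg _)]
    exact pr.χ_le _
  have hη : (0 : ℝ) ≤ ‖S.η l‖ := norm_nonneg _
  calc _ ≤ ‖st.C x • ((deriv pr.χ (S.η l x / s) / s) • S.η l)‖ +
        ‖pr.χ (S.η l x / s) • fderiv ℝ st.C x‖ := norm_add_le _ _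
    _ ≤ 1 * (A / |s| * ‖S.η l‖) + 1 * B := by
        rw [norm_smul, norm_smul, norm_smul, Real.norm_eq_abs, Real.norm_eq_abs, Real.norm_eq_abs,
          abs_div]
        have h4 : |deriv pr.χ (S.η l x / s)| / |s| ≤ A / |s| :=
          div_le_div_of_nonneg_right (hA _) (abs_nonneg _)
        exact add_le_add
          (mul_le_mul hC (mul_le_mul_of_nonneg_right h4 hη) (by positivity) zero_le_one)
          (mul_le_mul hχ (hB x) (norm_nonneg _) zero_le_one)
    _ = _ := by ring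

theorem stepP_C (x : ι → ℝ) (hx : stepP st l pr s x ≠ 0) :
    ∀ᶠ y in 𝓝 x, stepC st l pr s y = 1 := by
  have h1 : st.P x ≠ 0 := left_ne_zero_of_mul hx
  have h2 : pr.g (S.η l x / s) ≠ 0 := right_ne_zero_of_mul hx
  have hc : Continuous fun y : ι → ℝ => S.η l y / s := (S.η l).continuous.div_const s
  filter_upwards [st.P_C x h1, (hc.tendsto x).eventually (pr.g_χ _ h2)] with y hy hy'
  show st.C y * pr.χ (S.η l y / s) = 1
  rw [hy, hy', one_mul]

theorem stepb_apply (α : L → ℝ) (x : ι → ℝ) :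
    stepb st l pr s α x = st.b α x + α l * stepφ st l pr s x := by
  simp [stepb, LinearMap.smulRight_apply, LinearMap.proj_apply]

theorem stepφ_smooth : ContDiff ℝ ∞ (stepφ st l pr s) :=
  st.C_smooth.mul (contDiff_const.mul (scale_contDiff (prim_contDiff pr.k_smooth) (S.η l) s))

theorem stepb_eq (α : L → ℝ) :
    stepb st l pr s α = fun x => st.b α x + α l * stepφ st l pr s x :=
  funext fun x => stepb_apply st l pr s α x

theorem stepb_smooth (α : L → ℝ) : ContDiff ℝ ∞ (stepb st l pr s α) := by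
  rw [stepb_eq]
  exact (st.b_smooth α).add (contDiff_const.mul (stepφ_smooth st l pr s))

variable {s}

theorem stepφ_hasFDerivAt (hs : s ≠ 0) (x : ι → ℝ) :
    HasFDerivAt (stepφ st l pr s) (st.C x • (pr.k (S.η l x / s) • S.η l) +
      (s * prim pr.k (S.η l x / s)) • fderiv ℝ st.C x) x :=
  (st.C_smooth.differentiable (by simp) x).hasFDerivAt.mul
    (saw_hasFDerivAt pr.k_smooth.continuous (S.η l) hs x)

theorem stepb_fderiv (hs : s ≠ 0) (α : L → ℝ) (x : ι → ℝ) :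
    fderiv ℝ (stepb st l pr s α) x = fderiv ℝ (st.b α) x +
      α l • (st.C x • (pr.k (S.η l x / s) • S.η l) +
        (s * prim pr.k (S.η l x / s)) • fderiv ℝ st.C x) := by
  rw [stepb_eq]
  exact (((st.b_smooth α).differentiable (by simp) x).hasFDerivAt.add
    ((stepφ_hasFDerivAt st l pr hs x).const_mul (α l))).fderiv

theorem st_C_of_P (x : ι → ℝ) (hx : st.P x ≠ 0) : st.C x = 1 ∧ fderiv ℝ st.C x = 0 := by
  have h1 := st.P_C x hx
  refine ⟨h1.self_of_nhds, ?_⟩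
  have h2 : st.C =ᶠ[𝓝 x] fun _ => (1 : ℝ) := h1
  rw [h2.fderiv_eq]
  simp

theorem stepb_P (hs : s ≠ 0) (α : L → ℝ) (x : ι → ℝ) (hx : st.P x ≠ 0) :
    fderiv ℝ (stepb st l pr s α) x = S.D w α + (α l * pr.k (S.η l x / s)) • S.η l := by
  obtain ⟨h1, h2⟩ := st_C_of_P st x hx
  rw [stepb_fderiv st l pr hs, st.b_P α x hx, h1, h2, one_smul, smul_zero, add_zero, smul_smul]

theorem stepb_P' (hs : s ≠ 0) (α : L → ℝ) (x : ι → ℝ) (hx : stepP st l pr s x ≠ 0) :
    fderiv ℝ (stepb st l pr s α) x = S.D (l :: w) α := by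
  have h1 : st.P x ≠ 0 := left_ne_zero_of_mul hx
  have h2 : pr.g (S.η l x / s) ≠ 0 := right_ne_zero_of_mul hx
  have h3 : pr.k (S.η l x / s) = -S.γ l := by
    apply pr.χ_k
    rw [(pr.g_χ _ h2).self_of_nhds]
    exact one_ne_zero
  rw [stepb_P st l pr hs α x h1, h3, S.D_cons]
  ext v
  simp only [ContinuousLinearMap.add_apply, ContinuousLinearMap.sub_apply,
    ContinuousLinearMap.smul_apply, smul_eq_mul]
  ring

theorem stepφ_small {A : ℝ} (hA : ∀ t, |prim pr.k t| ≤ A) (hs : 0 < s) (x : ι → ℝ) :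
    |stepφ st l pr s x| ≤ s * A := by
  unfold stepφ
  have hC : |st.C x| ≤ 1 := by
    rw [abs_of_nonneg (st.C_nonneg x)]
    exact st.C_le x
  rw [abs_mul, abs_mul, abs_of_pos hs]
  calc _ ≤ 1 * (s * |prim pr.k (S.η l x / s)|) := mul_le_mul_of_nonneg_right hC (by positivity)
    _ = s * |prim pr.k (S.η l x / s)| := one_mul _
    _ ≤ s * A := mul_le_mul_of_nonneg_left (hA _) hs.le

end

end Pool.Agent.Lib.MP_65fa9b_an_c
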