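import Pool.Agent.Lib.MP_65fa9b_an_c.Step

/-!
# One step of the construction: estimates
-/

set_option autoImplicit false

open MeasureTheory Set Filter Topology

open scoped ContDiff NNReal

namespace Pool.Agent.Lib.MP_65fa9b_an_c

section

variable {ι L : Type*} [Fintype ι] [DecidableEq ι] [Fintype L] [DecidableEq L]
  {S : Sys ι L} {ν : Seminorm ℝ (ι → ℝ)} {w : List L} {ε : ℝ} (st : State S ν w ε) (l : L)
  (pr : Profile (S.γ l)) {s : ℝ}

theorem step_err {A B : ℝ} (hA : ∀ t, |prim pr.k t| ≤ A) (hB : ∀ x, ‖fderiv ℝ st.C x‖ ≤ B)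
    (hs : 0 < s) (α : L → ℝ) (x : ι → ℝ) :
    ‖α l • ((s * prim pr.k (S.η l x / s)) • fderiv ℝ st.C x)‖ ≤ s * A * B * ‖α‖ := by
  have h1 : |α l| ≤ ‖α‖ := norm_le_pi_norm α l
  have hA0 : 0 ≤ A := (abs_nonneg _).trans (hA 0)
  rw [norm_smul, norm_smul, Real.norm_eq_abs, Real.norm_eq_abs, abs_mul, abs_of_pos hs]
  calc _ ≤ ‖α‖ * (s * A * B) := by
        refine mul_le_mul h1 ?_ (by positivity) (norm_nonneg _)
        exact mul_le_mul (mul_le_mul_of_nonneg_left (hA _) hs.le) (hB x) (norm_nonneg _)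
          (by positivity)
    _ = _ := by ring

theorem step_grad1 {A B : ℝ} (hA : ∀ t, |prim pr.k t| ≤ A) (hB : ∀ x, ‖fderiv ℝ st.C x‖ ≤ B)
    (hs : 0 < s) {ε' : ℝ} (hsm : s * A * B ≤ ε' - ε) (α : L → ℝ) (R : ℝ)
    (hR : ∀ w', w' <:+ l :: w → ‖S.D w' α‖ ≤ R) (x : ι → ℝ) (hx : stepC st l pr s x ≠ 0) :
    ‖fderiv ℝ (stepb st l pr s α) x - stepC st l pr s x • S.D (l :: w) α‖ ≤
      (1 - stepC st l pr s x) * R + ε' * ‖α‖ := by
  have h1 : st.C x ≠ 0 := left_ne_zero_of_mul hx
  have h2 : pr.χ (S.η l x / s) ≠ 0 := right_ne_zero_of_mul hx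
  have h3 := pr.χ_k _ h2
  have h4 := st.grad1 α R (fun w' hw' => hR w' (hw'.trans (List.suffix_cons l w))) x h1
  have h5 := hR _ List.suffix_rfl
  have h6 := step_err st l pr hA hB hs α x
  have h7 := stepC_le st l pr s x
  have e : fderiv ℝ (stepb st l pr s α) x - stepC st l pr s x • S.D (l :: w) α =
      (fderiv ℝ (st.b α) x - st.C x • S.D w α) +
      (st.C x - stepC st l pr s x) • S.D (l :: w) α +
      α l • ((s * prim pr.k (S.η l x / s)) • fderiv ℝ st.C x) := by
    rw [stepb_fderiv st l pr hs.ne', h3, S.D_cons]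
    ext v
    simp only [ContinuousLinearMap.add_apply, ContinuousLinearMap.sub_apply,
      ContinuousLinearMap.smul_apply, smul_eq_mul]
    ring
  rw [e]
  have hα : 0 ≤ ‖α‖ := norm_nonneg α
  calc _ ≤ ‖fderiv ℝ (st.b α) x - st.C x • S.D w α‖ +
        ‖(st.C x - stepC st l pr s x) • S.D (l :: w) α‖ +
        ‖α l • ((s * prim pr.k (S.η l x / s)) • fderiv ℝ st.C x)‖ := norm_add₃_le
    _ ≤ ((1 - st.C x) * R + ε * ‖α‖) + (st.C x - stepC st l pr s x) * R + (ε' - ε) * ‖α‖ := by
        refine add_le_add (add_le_add h4 ?_) (h6.trans (mul_le_mul_of_nonneg_right hsm hα))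
        rw [norm_smul, Real.norm_of_nonneg (sub_nonneg.mpr h7)]
        exact mul_le_mul_of_nonneg_left h5 (sub_nonneg.mpr h7)
    _ = _ := by ring

theorem step_grad2 {A B : ℝ} (hA : ∀ t, |prim pr.k t| ≤ A) (hB : ∀ x, ‖fderiv ℝ st.C x‖ ≤ B)
    (hs : 0 < s) {ε' : ℝ} (hsm : s * A * B ≤ ε' - ε) (α : L → ℝ) (R : ℝ)
    (hR : ∀ w', w' <:+ l :: w → ‖S.D w' α‖ ≤ R) (x : ι → ℝ) :
    ‖fderiv ℝ (stepb st l pr s α) x‖ ≤ R + (4 + ε') * ‖α‖ := by
  have hR' : ∀ w', w' <:+ w → ‖S.D w' α‖ ≤ R :=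
    fun w' hw' => hR w' (hw'.trans (List.suffix_cons l w))
  have h6 := step_err st l pr hA hB hs α x
  have hα : 0 ≤ ‖α‖ := norm_nonneg α
  have h6' := h6.trans (mul_le_mul_of_nonneg_right hsm hα)
  by_cases h1 : st.C x = 0
  · have e : fderiv ℝ (stepb st l pr s α) x = fderiv ℝ (st.b α) x +
        α l • ((s * prim pr.k (S.η l x / s)) • fderiv ℝ st.C x) := by
      rw [stepb_fderiv st l pr hs.ne', h1, zero_smul, zero_add]
    rw [e]
    calc _ ≤ ‖fderiv ℝ (st.b α) x‖ + ‖α l • ((s * prim pr.k (S.η l x / s)) • fderiv ℝ st.C x)‖ :=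
          norm_add_le _ _
      _ ≤ (R + (4 + ε) * ‖α‖) + (ε' - ε) * ‖α‖ := add_le_add (st.grad2 α R hR' x) h6'
      _ = _ := by ring
  · have h4 := st.grad1 α R hR' x h1
    have h5 := hR' _ List.suffix_rfl
    have e : fderiv ℝ (stepb st l pr s α) x =
        (fderiv ℝ (st.b α) x - st.C x • S.D w α) + st.C x • S.D w α +
        (α l * (st.C x * pr.k (S.η l x / s))) • S.η l +
        α l • ((s * prim pr.k (S.η l x / s)) • fderiv ℝ st.C x) := by
      rw [stepb_fderiv st l pr hs.ne']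
      ext v
      simp only [ContinuousLinearMap.add_apply, ContinuousLinearMap.sub_apply,
        ContinuousLinearMap.smul_apply, smul_eq_mul]
      ring
    rw [e]
    have hC0 := st.C_nonneg x
    have hC1 := st.C_le x
    have hk : |pr.k (S.η l x / s)| ≤ 2 := by
      rw [abs_le]
      have h7 := pr.k_ge (S.η l x / s)
      have h8 := S.γ_le l
      exact ⟨by linarith, pr.k_le _⟩
    have h9 : |α l| ≤ ‖α‖ := norm_le_pi_norm α l
    calc _ ≤ ‖fderiv ℝ (st.b α) x - st.C x • S.D w α‖ + ‖st.C x • S.D w α‖ +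
          ‖(α l * (st.C x * pr.k (S.η l x / s))) • S.η l‖ +
          ‖α l • ((s * prim pr.k (S.η l x / s)) • fderiv ℝ st.C x)‖ :=
          (norm_add_le _ _).trans (add_le_add norm_add₃_le le_rfl)
      _ ≤ ((1 - st.C x) * R + ε * ‖α‖) + st.C x * R + (‖α‖ * (1 * 2)) * 2 +
          (ε' - ε) * ‖α‖ := by
          refine add_le_add (add_le_add (add_le_add h4 ?_) ?_) h6'
          · rw [norm_smul, Real.norm_of_nonneg hC0]
            exact mul_le_mul_of_nonneg_left h5 hC0
          · rw [norm_smul, Real.norm_eq_abs, abs_mul, abs_mul, abs_of_nonneg hC0]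
            refine mul_le_mul ?_ (S.norm_η l) (norm_nonneg _) (by positivity)
            exact mul_le_mul h9 (mul_le_mul hC1 hk (abs_nonneg _) zero_le_one) (by positivity) hα
      _ = _ := by ring

variable (s)

theorem integrable_P_mul {e : ℝ → ℝ} (he : ContDiff ℝ ∞ e) :
    Integrable fun x => st.P x * e (S.η l x / s) :=
  (st.P_test.mul_right (scale_contDiff he (S.η l) s)).integrable

theorem stepN_integral : ∫ x, stepN st l pr s x =
    -(∫ x, st.P x * (pr.g (S.η l x / s) - 1)) / (2 * S.γ l) := by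
  rw [← integral_neg, ← integral_div]
  refine integral_congr_ae (Filter.Eventually.of_forall fun x => ?_)
  show st.P x * ((1 - pr.g (S.η l x / s)) / (2 * S.γ l)) =
    -(st.P x * (pr.g (S.η l x / s) - 1)) / (2 * S.γ l)
  ring

theorem stepN_abs_integral :
    ∫ x, |stepN st l pr s x| ≤ (∫ x, stepN st l pr s x) + 2 * ∫ x, st.P x := by
  have hγ := S.γ_pos l
  rw [← integral_const_mul, ← integral_add (stepN_test st l pr s).integrable
    (st.P_test.integrable.const_mul 2)]
  refine integral_mono (stepN_test st l pr s).integrable.abs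
    ((stepN_test st l pr s).integrable.add (st.P_test.integrable.const_mul 2)) fun x => ?_
  show |st.P x * ((1 - pr.g (S.η l x / s)) / (2 * S.γ l))| ≤
    st.P x * ((1 - pr.g (S.η l x / s)) / (2 * S.γ l)) + 2 * st.P x
  have h1 : -1 ≤ (1 - pr.g (S.η l x / s)) / (2 * S.γ l) := by
    rw [le_div_iff₀ (by positivity)]
    linarith [pr.g_le (S.η l x / s)]
  have hP := st.P_nonneg x
  rw [abs_le]
  constructor
  · nlinarith
  · nlinarith

theorem stepP_integral : ∫ x, stepP st l pr s x =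
    (∫ x, st.P x) + ∫ x, st.P x * (pr.g (S.η l x / s) - 1) := by
  rw [← integral_add st.P_test.integrable
    (integrable_P_mul st l s (e := fun t => pr.g t - 1) (pr.g_smooth.sub contDiff_const))]
  refine integral_congr_ae (Filter.Eventually.of_forall fun x => ?_)
  show st.P x * pr.g (S.η l x / s) = st.P x + st.P x * (pr.g (S.η l x / s) - 1)
  ring

theorem profile_kg (t : ℝ) : pr.k t * pr.g t = -S.γ l * pr.g t := by
  by_cases h : pr.g t = 0
  · rw [h, mul_zero, mul_zero]
  · rw [pr.χ_k t (by rw [(pr.g_χ t h).self_of_nhds]; exact one_ne_zero)]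

variable {s}

theorem stepN_pair (hs : s ≠ 0) (α : L → ℝ) :
    pair (S.r l) (stepN st l pr s) (stepb st l pr s α) =
      S.D w α (S.r l) * (∫ x, stepN st l pr s x) + α l * (1 / 2 * (∫ x, st.P x) +
        ∫ x, st.P x * (pr.k (S.η l x / s) / (2 * S.γ l) + (pr.g (S.η l x / s) - 1) / 2)) := by
  have hγ := S.γ_pos l
  rw [pair_eq_integral_fderiv _ (stepN_test st l pr s)
    ((stepb_smooth st l pr s α).of_le (by exact_mod_cast le_top))]
  have he : ContDiff ℝ ∞ fun t => pr.k t / (2 * S.γ l) + (pr.g t - 1) / 2 :=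
    (pr.k_smooth.div_const _).add ((pr.g_smooth.sub contDiff_const).div_const _)
  have hI1 : Integrable fun x => 1 / 2 * st.P x := st.P_test.integrable.const_mul _
  have hI2 := integrable_P_mul st l s (e := fun t => pr.k t / (2 * S.γ l) + (pr.g t - 1) / 2) he
  have hI3 : Integrable fun x => S.D w α (S.r l) * stepN st l pr s x :=
    (stepN_test st l pr s).integrable.const_mul _
  have hI4 : Integrable fun x => α l * (1 / 2 * st.P x +
      st.P x * (pr.k (S.η l x / s) / (2 * S.γ l) + (pr.g (S.η l x / s) - 1) / 2)) :=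
    (hI1.add hI2).const_mul _
  have e1 : 1 / 2 * (∫ x, st.P x) = ∫ x, 1 / 2 * st.P x := (integral_const_mul _ _).symm
  have e2 : (∫ x, 1 / 2 * st.P x) +
      (∫ x, st.P x * (pr.k (S.η l x / s) / (2 * S.γ l) + (pr.g (S.η l x / s) - 1) / 2)) =
      ∫ x, (1 / 2 * st.P x +
        st.P x * (pr.k (S.η l x / s) / (2 * S.γ l) + (pr.g (S.η l x / s) - 1) / 2)) :=
    (integral_add hI1 hI2).symm
  rw [e1, e2, ← integral_const_mul, ← integral_const_mul, ← integral_add hI3 hI4]
  refine integral_congr_ae (Filter.Eventually.of_forall fun x => ?_)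
  show fderiv ℝ (stepb st l pr s α) x (S.r l) * stepN st l pr s x =
    S.D w α (S.r l) * stepN st l pr s x + α l * (1 / 2 * st.P x +
      st.P x * (pr.k (S.η l x / s) / (2 * S.γ l) + (pr.g (S.η l x / s) - 1) / 2))
  by_cases hx : st.P x = 0
  · have h0 : stepN st l pr s x = 0 := by unfold stepN; rw [hx, zero_mul]
    rw [h0, hx]
    ring
  · rw [stepb_P st l pr hs α x hx, ContinuousLinearMap.add_apply, ContinuousLinearMap.smul_apply,
      S.ηr, smul_eq_mul, mul_one]
    unfold stepN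
    have h1 := profile_kg l pr (S.η l x / s)
    field_simp
    linear_combination (-(α l * 1)) * h1

end

end Pool.Agent.Lib.MP_65fa9b_an_c
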