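import Pool.Agent.Lib.MP_65fa9b_an_c.Step2

/-!
# One step of the construction: the step lemma
-/

set_option autoImplicit false

open MeasureTheory Set Filter Topology

open scoped ContDiff NNReal

namespace Pool.Agent.Lib.MP_65fa9b_an_c

section

variable {ι L : Type*} [Fintype ι] [DecidableEq ι] [Fintype L] [DecidableEq L]
  {S : Sys ι L} {ν : Seminorm ℝ (ι → ℝ)} {w : List L} {ε : ℝ} (st : State S ν w ε) (l : L)
  (pr : Profile (S.γ l)) (s : ℝ)

/-- The oscillating density. -/
noncomputable def stepM (x : ι → ℝ) : ℝ := st.P x * (pr.g (S.η l x / s) - 1)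

theorem stepM_test : IsTest (stepM st l pr s) :=
  st.P_test.mul_right ((scale_contDiff pr.g_smooth (S.η l) s).sub contDiff_const)

theorem step_tele_id {ψ : (ι → ℝ) → ℝ} (hψ : Continuous ψ) (i : ι) :
    ∑ l', 2 * S.γ l' * S.η l' (Pi.single i 1) * pair (S.r l') (stepQ st l pr s l') ψ +
      pair (Pi.single i 1) (stepP st l pr s) ψ =
    (∑ l', 2 * S.γ l' * S.η l' (Pi.single i 1) * pair (S.r l') (st.Q l') ψ +
      pair (Pi.single i 1) st.P ψ) +
      pair (Pi.single i 1 + (-(S.η l (Pi.single i 1))) • S.r l) (stepM st l pr s) ψ := by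
  have hγ := S.γ_pos l
  have hM := stepM_test st l pr s
  have h1 : ∀ l', pair (S.r l') (stepQ st l pr s l') ψ = pair (S.r l') (st.Q l') ψ +
      (if l' = l then 1 else 0) * pair (S.r l') (stepN st l pr s) ψ := by
    intro l'
    have h2 : pair (S.r l') (stepQ st l pr s l') ψ = pair (S.r l') (fun x => st.Q l' x +
      (if l' = l then 1 else 0) * stepN st l pr s x) ψ := rfl
    rw [h2, pair_add_Q _ (st.Q_test l') ((stepN_test st l pr s).const_mul _) hψ,
      pair_const_mul_Q _ (stepN_test st l pr s)]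
  have h3 : pair (S.r l) (stepN st l pr s) ψ =
      (-1 / (2 * S.γ l)) * pair (S.r l) (stepM st l pr s) ψ := by
    rw [← pair_const_mul_Q _ hM]
    congr 1
    funext x
    unfold stepN stepM
    ring
  have h4 : pair (Pi.single i 1) (stepP st l pr s) ψ = pair (Pi.single i 1) st.P ψ +
      pair (Pi.single i 1) (stepM st l pr s) ψ := by
    rw [← pair_add_Q _ st.P_test hM hψ]
    congr 1
    funext x
    unfold stepP stepM
    ring
  have h5 : ∑ l', 2 * S.γ l' * S.η l' (Pi.single i 1) * pair (S.r l') (stepQ st l pr s l') ψ =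
      ∑ l', 2 * S.γ l' * S.η l' (Pi.single i 1) * pair (S.r l') (st.Q l') ψ +
        2 * S.γ l * S.η l (Pi.single i 1) * pair (S.r l) (stepN st l pr s) ψ := by
    simp only [h1, mul_add, Finset.sum_add_distrib]
    congr 1
    rw [Finset.sum_eq_single l]
    · simp
    · intro l' _ hl'
      simp [hl']
    · intro h
      exact absurd (Finset.mem_univ l) h
  rw [h5, h3, h4, pair_add_v _ _ hM hψ, pair_smul_v]
  field_simp
  ring

theorem stepM_integral : ∫ x, stepN st l pr s x = -(∫ x, stepM st l pr s x) / (2 * S.γ l) :=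
  stepN_integral st l pr s

/-- **The step lemma.** -/
theorem state_cons (S : Sys ι L) (ν : Seminorm ℝ (ι → ℝ)) (_hν : ∀ i, ν (Pi.single i 1) ≤ 1)
    {ε : ℝ} (hε : 0 < ε) (hε' : ε ≤ 1 / 8) (l : L) (w : List L) (st : State S ν w (ε / 2)) :
    Nonempty (State S ν (l :: w) ε) := by
  obtain ⟨pr⟩ := exists_profile (S.γ_pos l) (S.γ_le l)
  have hγ := S.γ_pos l
  have hγ4 := S.γ_le l
  obtain ⟨A, hA0, hA⟩ := prim_bdd pr.k_smooth.continuous pr.k_per pr.k_int
  obtain ⟨B, hB⟩ := st.C_bdd
  have hB0 : 0 ≤ B := (norm_nonneg _).trans (hB 0)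
  obtain ⟨BD, hBD0, hBD⟩ := S.D_apply_le w (S.r l)
  choose BQ hBQ0 hBQ using fun l' => abs_pair_le_sup (S.r l') (st.Q_test l')
  obtain ⟨K, hK⟩ := lipschitz_of_seminorm ν
  -- means
  have hgint : ∫ t in (0 : ℝ)..1, (pr.g t - 1) = 0 := by
    rw [intervalIntegral.integral_sub (pr.g_smooth.continuous.intervalIntegrable _ _)
      intervalIntegrable_const, pr.g_int]
    simp
  have hgper : Function.Periodic (fun t => pr.g t - 1) 1 := fun t => by
    show pr.g (t + 1) - 1 = pr.g t - 1
    rw [pr.g_per t]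
  have hgs : ContDiff ℝ ∞ fun t => pr.g t - 1 := pr.g_smooth.sub contDiff_const
  have hkint : ∫ t in (0 : ℝ)..1, (pr.k t / (2 * S.γ l) + (pr.g t - 1) / 2) = 0 := by
    rw [intervalIntegral.integral_add
      ((pr.k_smooth.continuous.div_const _).intervalIntegrable _ _)
      ((hgs.continuous.div_const _).intervalIntegrable _ _), intervalIntegral.integral_div,
      intervalIntegral.integral_div, pr.k_int, hgint]
    simp
  have hkper : Function.Periodic (fun t => pr.k t / (2 * S.γ l) + (pr.g t - 1) / 2) 1 :=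
    fun t => by
      show pr.k (t + 1) / (2 * S.γ l) + (pr.g (t + 1) - 1) / 2 = _
      rw [pr.g_per t, pr.k_per t]
  have hks : ContDiff ℝ ∞ fun t => pr.k t / (2 * S.γ l) + (pr.g t - 1) / 2 :=
    (pr.k_smooth.div_const _).add (hgs.div_const _)
  -- the eventual properties
  have hδ : 0 < ε * S.γ l / (16 * (1 + BD)) := by positivity
  have ev1 := avg_test st.P_test hgs.continuous hgper hgint (S.η l) (S.r l) (S.ηr l) hδ
  have ev2 := avg_test st.P_test hks.continuous hkper hkint (S.η l) (S.r l) (S.ηr l)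
    (show (0 : ℝ) < ε / 16 by positivity)
  have ev3 : ∀ᶠ s in 𝓝[>] (0 : ℝ), ∀ i : ι, ∀ ψ : (ι → ℝ) → ℝ, ψ 0 = 0 → LipschitzWith K ψ →
      |pair (Pi.single i 1 + (-(S.η l (Pi.single i 1))) • S.r l)
        (fun x => st.P x * (pr.g (S.η l x / s) - 1)) ψ| ≤ ε / 4 := by
    rw [eventually_all]
    intro i
    refine null_test st.P_test hgs hgper hgint (S.η l) (S.r l) (S.ηr l) _ ?_ K
      (show (0 : ℝ) < ε / 4 by positivity)
    rw [map_add, map_smul, S.ηr, smul_eq_mul, mul_one, add_neg_cancel]
  have ev4 : ∀ᶠ s in 𝓝[>] (0 : ℝ), s * A * B ≤ ε / 8 := by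
    have h1 : Tendsto (fun s : ℝ => s * A * B) (𝓝[>] 0) (𝓝 (0 * A * B)) :=
      (((continuous_id.mul continuous_const).mul continuous_const).tendsto 0).mono_left
        nhdsWithin_le_nhds
    rw [zero_mul, zero_mul] at h1
    exact h1.eventually_le_const (by positivity)
  have ev5 : ∀ᶠ s in 𝓝[>] (0 : ℝ), ∀ l' : L, BQ l' * (s * A) ≤ ε / 16 := by
    rw [eventually_all]
    intro l'
    have h1 : Tendsto (fun s : ℝ => BQ l' * (s * A)) (𝓝[>] 0) (𝓝 (BQ l' * (0 * A))) :=
      ((continuous_const.mul (continuous_id.mul continuous_const)).tendsto 0).mono_left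
        nhdsWithin_le_nhds
    rw [zero_mul, mul_zero] at h1
    exact h1.eventually_le_const (by positivity)
  obtain ⟨s, h1, h2, h3, h4, h5, hs⟩ :=
    (ev1.and (ev2.and (ev3.and (ev4.and (ev5.and self_mem_nhdsWithin))))).exists
  have hs0 : (0 : ℝ) < s := hs
  -- the small integrals
  have hPi := st.P_int
  have hM1 : |∫ x, stepM st l pr s x| ≤ ε * S.γ l / (16 * (1 + BD)) := h1
  have hM2 : ε * S.γ l / (16 * (1 + BD)) ≤ ε * S.γ l / 16 := by
    apply div_le_div_of_nonneg_left (by positivity) (by norm_num)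
    linarith
  have hM3 : BD * (ε * S.γ l / (16 * (1 + BD))) ≤ ε * S.γ l / 16 := by
    rw [mul_div_assoc', div_le_div_iff₀ (by positivity) (by norm_num)]
    nlinarith [mul_pos hε hγ]
  have hN0 : |∫ x, stepN st l pr s x| = |∫ x, stepM st l pr s x| / (2 * S.γ l) := by
    rw [stepM_integral, abs_div, abs_neg, abs_of_pos (show (0 : ℝ) < 2 * S.γ l by positivity)]
  have hN1 : |∫ x, stepN st l pr s x| ≤ ε / 32 := by
    rw [hN0, div_le_iff₀ (by positivity)]
    calc _ ≤ ε * S.γ l / 16 := hM1.trans hM2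
      _ = ε / 32 * (2 * S.γ l) := by ring
  have hN2 : BD * |∫ x, stepN st l pr s x| ≤ ε / 32 := by
    rw [hN0, mul_div_assoc', div_le_iff₀ (by positivity)]
    calc _ ≤ BD * (ε * S.γ l / (16 * (1 + BD))) := mul_le_mul_of_nonneg_left hM1 hBD0
      _ ≤ ε * S.γ l / 16 := hM3
      _ = ε / 32 * (2 * S.γ l) := by ring
  have hN3 : ∫ x, |stepN st l pr s x| ≤ 3 := by
    have h6 := stepN_abs_integral st l pr s
    have h7 := (abs_le.mp hN1).2
    have h8 := (abs_le.mp hPi).2
    linarith
  refine ⟨{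
    P := stepP st l pr s
    C := stepC st l pr s
    b := stepb st l pr s
    Q := stepQ st l pr s
    P_test := stepP_test st l pr s
    P_nonneg := stepP_nonneg st l pr s
    P_int := ?_
    C_smooth := stepC_smooth st l pr s
    C_nonneg := stepC_nonneg st l pr s
    C_le := fun x => (stepC_le st l pr s x).trans (st.C_le x)
    C_bdd := stepC_bdd st l pr s
    P_C := stepP_C st l pr s
    b_smooth := stepb_smooth st l pr s
    b_P := stepb_P' st l pr hs0.ne'
    grad1 := step_grad1 st l pr hA hB hs0 (by linarith)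
    grad2 := step_grad2 st l pr hA hB hs0 (by linarith)
    Q_test := stepQ_test st l pr s
    Q_int := ?_
    pairing := ?_
    tele := ?_ }⟩
  · -- P_int
    rw [stepP_integral]
    have h6 : |∫ x, st.P x * (pr.g (S.η l x / s) - 1)| ≤ ε / 16 := by
      refine (h1.trans hM2).trans ?_
      nlinarith
    calc _ = |((∫ x, st.P x) - 1) + ∫ x, st.P x * (pr.g (S.η l x / s) - 1)| := by
          congr 1; ring
      _ ≤ |(∫ x, st.P x) - 1| + |∫ x, st.P x * (pr.g (S.η l x / s) - 1)| := abs_add_le _ _
      _ ≤ ε := by linarith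
  · -- Q_int
    intro l'
    have hN := stepN_test st l pr s
    have h6 : ∫ x, |stepQ st l pr s l' x| ≤
        (∫ x, |st.Q l' x|) + (if l' = l then 1 else 0) * ∫ x, |stepN st l pr s x| := by
      rw [← integral_const_mul, ← integral_add (st.Q_test l').integrable.abs
        (hN.integrable.abs.const_mul _)]
      refine integral_mono (stepQ_test st l pr s l').integrable.abs
        ((st.Q_test l').integrable.abs.add (hN.integrable.abs.const_mul _)) fun x => ?_
      show |st.Q l' x + (if l' = l then 1 else 0) * stepN st l pr s x| ≤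
        |st.Q l' x| + (if l' = l then 1 else 0) * |stepN st l pr s x|
      refine (abs_add_le _ _).trans ?_
      rw [abs_mul]
      split_ifs <;> simp
    have h7 := st.Q_int l'
    by_cases hl : l' = l
    · subst hl
      rw [List.count_cons_self]
      rw [if_pos rfl, one_mul] at h6
      push_cast
      linarith
    · rw [List.count_cons_of_ne (Ne.symm hl)]
      rw [if_neg hl, zero_mul, add_zero] at h6
      exact h6.trans h7
  · -- pairing
    intro α l'
    have hN := stepN_test st l pr s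
    have hα : 0 ≤ ‖α‖ := norm_nonneg α
    have hαl : |α l| ≤ ‖α‖ := norm_le_pi_norm α l
    have hbc : Continuous (st.b α) := (st.b_smooth α).continuous
    have hφc : Continuous (stepφ st l pr s) := (stepφ_smooth st l pr s).continuous
    have hbc' : Continuous (stepb st l pr s α) := (stepb_smooth st l pr s α).continuous
    have e1 : pair (S.r l') (stepQ st l pr s l') (stepb st l pr s α) =
        pair (S.r l') (st.Q l') (st.b α) + α l * pair (S.r l') (st.Q l') (stepφ st l pr s) +
        (if l' = l then 1 else 0) * pair (S.r l') (stepN st l pr s) (stepb st l pr s α) := by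
      have h6 : pair (S.r l') (stepQ st l pr s l') (stepb st l pr s α) =
        pair (S.r l') (fun x => st.Q l' x + (if l' = l then 1 else 0) * stepN st l pr s x)
          (stepb st l pr s α) := rfl
      rw [h6, pair_add_Q _ (st.Q_test l') (hN.const_mul _) hbc', pair_const_mul_Q _ hN]
      congr 1
      rw [stepb_eq, pair_add (φ := fun x => α l * stepφ st l pr s x) _ (st.Q_test l') hbc
        (continuous_const.mul hφc), pair_smul]
    have e2 : |α l * pair (S.r l') (st.Q l') (stepφ st l pr s)| ≤ ε / 16 * ‖α‖ := by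
      have h6 := hBQ l' (stepφ st l pr s) (s * A) (stepφ_small st l pr hA hs0)
      rw [abs_mul, mul_comm]
      exact mul_le_mul (h6.trans (h5 l')) hαl (abs_nonneg _) (by positivity)
    have e3 := st.pairing α l'
    by_cases hl : l' = l
    · subst hl
      rw [e1, if_pos rfl, one_mul, stepN_pair st l' pr hs0.ne' α, List.count_cons_self]
      have e4 : |S.D w α (S.r l') * ∫ x, stepN st l' pr s x| ≤ ε / 32 * ‖α‖ := by
        rw [abs_mul]
        calc _ ≤ (BD * ‖α‖) * |∫ x, stepN st l' pr s x| :=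
              mul_le_mul_of_nonneg_right (hBD α) (abs_nonneg _)
          _ = (BD * |∫ x, stepN st l' pr s x|) * ‖α‖ := by ring
          _ ≤ ε / 32 * ‖α‖ := mul_le_mul_of_nonneg_right hN2 hα
      set I2 := ∫ x, st.P x * (pr.k (S.η l' x / s) / (2 * S.γ l') + (pr.g (S.η l' x / s) - 1) / 2)
        with hI2
      have e5 : |α l' * (1 / 2 * ((∫ x, st.P x) - 1) + I2)| ≤ (ε / 4 + ε / 16) * ‖α‖ := by
        rw [abs_mul, mul_comm]
        refine mul_le_mul ?_ hαl (abs_nonneg _) (by positivity)
        calc _ ≤ |1 / 2 * ((∫ x, st.P x) - 1)| + |I2| := abs_add_le _ _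
          _ ≤ ε / 4 + ε / 16 := by
              refine add_le_add ?_ h2
              rw [abs_mul, abs_of_pos (by norm_num : (0 : ℝ) < 1 / 2)]
              linarith
      have e6 : pair (S.r l') (st.Q l') (st.b α) + α l' * pair (S.r l') (st.Q l') (stepφ st l' pr s) +
          (S.D w α (S.r l') * (∫ x, stepN st l' pr s x) + α l' * (1 / 2 * (∫ x, st.P x) + I2)) -
          ((w.count l' + 1 : ℕ) : ℝ) * (α l' / 2) =
          (pair (S.r l') (st.Q l') (st.b α) - (w.count l' : ℝ) * (α l' / 2)) +
          α l' * pair (S.r l') (st.Q l') (stepφ st l' pr s) +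
          S.D w α (S.r l') * (∫ x, stepN st l' pr s x) +
          α l' * (1 / 2 * ((∫ x, st.P x) - 1) + I2) := by
        push_cast
        ring
      rw [e6]
      calc _ ≤ |pair (S.r l') (st.Q l') (st.b α) - (w.count l' : ℝ) * (α l' / 2)| +
            |α l' * pair (S.r l') (st.Q l') (stepφ st l' pr s)| +
            |S.D w α (S.r l') * (∫ x, stepN st l' pr s x)| +
            |α l' * (1 / 2 * ((∫ x, st.P x) - 1) + I2)| :=
            (abs_add_le _ _).trans (add_le_add (abs_add_three _ _ _) le_rfl)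
        _ ≤ ε / 2 * ‖α‖ + ε / 16 * ‖α‖ + ε / 32 * ‖α‖ + (ε / 4 + ε / 16) * ‖α‖ :=
            add_le_add (add_le_add (add_le_add e3 e2) e4) e5
        _ = (29 / 32) * (ε * ‖α‖) := by ring
        _ ≤ ε * ‖α‖ := by nlinarith [mul_nonneg hε.le hα]
    · rw [e1, if_neg hl, zero_mul, add_zero, List.count_cons_of_ne (Ne.symm hl)]
      have e6 : pair (S.r l') (st.Q l') (st.b α) + α l * pair (S.r l') (st.Q l') (stepφ st l pr s) -
          (w.count l' : ℝ) * (α l' / 2) =
          (pair (S.r l') (st.Q l') (st.b α) - (w.count l' : ℝ) * (α l' / 2)) +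
          α l * pair (S.r l') (st.Q l') (stepφ st l pr s) := by ring
      rw [e6]
      calc _ ≤ |pair (S.r l') (st.Q l') (st.b α) - (w.count l' : ℝ) * (α l' / 2)| +
            |α l * pair (S.r l') (st.Q l') (stepφ st l pr s)| := abs_add_le _ _
        _ ≤ ε / 2 * ‖α‖ + ε / 16 * ‖α‖ := add_le_add e3 e2
        _ = (9 / 16) * (ε * ‖α‖) := by ring
        _ ≤ ε * ‖α‖ := by nlinarith [mul_nonneg hε.le hα]
  · -- tele
    intro ψ hψ0 hψ i
    have hL := hK ψ hψ
    rw [step_tele_id st l pr s hL.continuous i]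
    have h6 := st.tele ψ hψ0 hψ i
    have h7 := h3 i ψ hψ0 hL
    calc _ ≤ |∑ l', 2 * S.γ l' * S.η l' (Pi.single i 1) * pair (S.r l') (st.Q l') ψ +
          pair (Pi.single i 1) st.P ψ| +
          |pair (Pi.single i 1 + (-(S.η l (Pi.single i 1))) • S.r l) (stepM st l pr s) ψ| :=
          abs_add_le _ _
      _ ≤ (1 + ε / 2) + ε / 4 := add_le_add h6 h7
      _ ≤ 1 + ε := by linarith

end

end Pool.Agent.Lib.MP_65fa9b_an_c
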